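import Pool.Agent.Helper59_Branch.Defs

set_option autoImplicit false

namespace Pool.Agent.Helper59_Branch

/-- vertices of the ternary tree: words written leaf first -/
abbrev V := List (Fin 3)

theorem tail_iterate (k : ℕ) (v : V) : (List.tail)^[k] v = v.drop k := by
  induction k generalizing v with
  | zero => simp
  | succ k ih =>
    rw [Function.iterate_succ_apply, ih]
    cases v <;> simp

/-- the ternary tree -/
abbrev T3 : RTree where
  V := List (Fin 3)
  root := []
  parent := List.tail
  parent_root := rfl
  reach := fun v => ⟨v.length, by rw [tail_iterate]; simp⟩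

/-- the automorphism group of the ternary tree -/
abbrev A := RTree.Aut T3

/-- application of an automorphism to a vertex -/
def ap (g : A) (v : V) : V := RTree.app T3 g v

@[simp] theorem ap_one (v : V) : ap 1 v = v := rfl
@[simp] theorem ap_mul (g h : A) (v : V) : ap (g * h) v = ap g (ap h v) := rfl
@[simp] theorem ap_inv_ap (g : A) (v : V) : ap g⁻¹ (ap g v) = v := by
  rw [← ap_mul]; simp
@[simp] theorem ap_ap_inv (g : A) (v : V) : ap g (ap g⁻¹ v) = v := by
  rw [← ap_mul]; simp
theorem ap_inj (g : A) {v w : V} (h : ap g v = ap g w) : v = w := by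
  rw [← ap_inv_ap g v, h, ap_inv_ap]
theorem ap_inj_iff (g : A) {v w : V} : ap g v = ap g w ↔ v = w :=
  ⟨ap_inj g, fun h => by rw [h]⟩
theorem ap_inv_eq_iff (g : A) {v w : V} : ap g⁻¹ v = w ↔ v = ap g w := by
  constructor
  · rintro rfl; simp
  · rintro rfl; simp
theorem A_ext {g h : A} (H : ∀ v, ap g v = ap h v) : g = h := by
  apply Subtype.ext
  apply Equiv.ext
  exact H

theorem ap_tail (g : A) (v : V) : ap g v.tail = (ap g v).tail := g.2 v

@[simp] theorem ap_nil (g : A) : ap g [] = [] := by
  have h := ap_tail g []
  have h2 : ∀ v : V, v = v.tail → v = [] := by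
    intro v hv
    cases v with
    | nil => rfl
    | cons a l =>
      exfalso
      have := congrArg List.length hv
      simp at this
  exact h2 _ h

theorem ap_ne_nil (g : A) {v : V} (h : v ≠ []) : ap g v ≠ [] := by
  intro h2
  apply h
  apply ap_inj g
  rw [h2, ap_nil]

/-- the label function -/
def labf (g : A) (v : V) (i : Fin 3) : Fin 3 := (ap g (i :: v)).headI

theorem ap_cons_f (g : A) (i : Fin 3) (v : V) : ap g (i :: v) = labf g v i :: ap g v := by
  have h := ap_tail g (i :: v)
  have h1 : ap g (i :: v) ≠ [] := ap_ne_nil g (by simp)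
  unfold labf
  simp only [List.tail_cons] at h
  rw [h]
  cases h2 : ap g (i :: v) with
  | nil => exact absurd h2 h1
  | cons a l => simp

theorem labf_inj (g : A) (v : V) : Function.Injective (labf g v) := by
  intro i j hij
  have h : ap g (i :: v) = ap g (j :: v) := by
    rw [ap_cons_f, ap_cons_f, hij]
  have := ap_inj g h
  simpa using this

/-- the label of an automorphism at a vertex -/
noncomputable def lab (g : A) (v : V) : Equiv.Perm (Fin 3) :=
  Equiv.ofBijective (labf g v) (Finite.injective_iff_bijective.1 (labf_inj g v))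

theorem ap_cons (g : A) (i : Fin 3) (v : V) : ap g (i :: v) = lab g v i :: ap g v :=
  ap_cons_f g i v

@[simp] theorem length_ap (g : A) (v : V) : (ap g v).length = v.length := by
  induction v with
  | nil => simp
  | cons i v ih => rw [ap_cons]; simp [ih]

theorem lab_ext {g h : A} (H : ∀ v, lab g v = lab h v) : g = h := by
  apply A_ext
  intro v
  induction v with
  | nil => simp
  | cons i v ih => rw [ap_cons, ap_cons, H, ih]

theorem lab_mul (g h : A) (v : V) : lab (g * h) v = lab g (ap h v) * lab h v := by
  apply Equiv.ext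
  intro i
  have h1 := ap_cons (g * h) i v
  rw [ap_mul, ap_cons h, ap_cons g] at h1
  simp only [List.cons.injEq] at h1
  rw [← h1.1]
  rfl

@[simp] theorem lab_one (v : V) : lab 1 v = 1 := by
  apply Equiv.ext
  intro i
  have h1 := ap_cons 1 i v
  simp only [ap_one, List.cons.injEq] at h1
  exact h1.1.symm

theorem ap_drop (g : A) (k : ℕ) (v : V) : ap g (v.drop k) = (ap g v).drop k := by
  induction k generalizing v with
  | zero => simp
  | succ k ih =>
    cases v with
    | nil => simp
    | cons i v => rw [ap_cons]; simp [ih]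

theorem suffix_iff_drop {v w : V} : v <:+ w ↔ v = w.drop (w.length - v.length) :=
  List.suffix_iff_eq_drop

theorem ap_suffix (g : A) {v w : V} (h : v <:+ w) : ap g v <:+ ap g w := by
  rw [suffix_iff_drop] at h ⊢
  rw [length_ap, length_ap, ← ap_drop, ← h]

theorem ap_suffix_iff (g : A) {v w : V} : ap g v <:+ ap g w ↔ v <:+ w := by
  constructor
  · intro h
    have := ap_suffix g⁻¹ h
    simpa using this
  · exact ap_suffix g

/-- if `g` fixes a vertex, it fixes its ancestors -/
theorem fix_of_suffix {g : A} {v w : V} (h : v <:+ w) (hw : ap g w = w) : ap g v = v := by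
  have h1 := suffix_iff_drop.1 h
  rw [h1, ap_drop, hw]

/-- sign of a permutation of three letters, as an element of `ZMod 2` -/
def sg (σ : Equiv.Perm (Fin 3)) : ZMod 2 := if Equiv.Perm.sign σ = 1 then 0 else 1

theorem sg_mul (σ τ : Equiv.Perm (Fin 3)) : sg (σ * τ) = sg σ + sg τ := by
  unfold sg
  rw [map_mul]
  rcases Int.units_eq_one_or (Equiv.Perm.sign σ) with h1 | h1 <;>
  rcases Int.units_eq_one_or (Equiv.Perm.sign τ) with h2 | h2 <;> rw [h1, h2] <;> decide

@[simp] theorem sg_one : sg 1 = 0 := by simp [sg]

/-- parity of the label -/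
noncomputable def par (g : A) (v : V) : ZMod 2 := sg (lab g v)

theorem par_mul (g h : A) (v : V) : par (g * h) v = par g (ap h v) + par h v := by
  unfold par
  rw [lab_mul, sg_mul]

@[simp] theorem par_one (v : V) : par 1 v = 0 := by
  unfold par
  rw [lab_one, sg_one]

theorem zmod2_add_self (a : ZMod 2) : a + a = 0 := by
  revert a; decide

theorem par_inv (g : A) (v : V) : par g⁻¹ v = par g (ap g⁻¹ v) := by
  have h := par_mul g g⁻¹ v
  rw [mul_inv_cancel, par_one] at h
  have h2 := zmod2_add_self (par g⁻¹ v)
  have h3 : ∀ a b : ZMod 2, 0 = a + b → b = a := by decide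
  exact h3 _ _ h

/-- a fixed vertex with fixed children has trivial label -/
theorem lab_eq_one {g : A} {v : V} (h : ∀ i, ap g (i :: v) = i :: v) : lab g v = 1 := by
  apply Equiv.ext
  intro i
  have := h i
  rw [ap_cons] at this
  simp only [List.cons.injEq] at this
  exact this.1

theorem par_eq_zero_of_fix {g : A} {v : V} (h : ∀ i, ap g (i :: v) = i :: v) : par g v = 0 := by
  unfold par
  rw [lab_eq_one h, sg_one]

/-! ### Automorphisms from portraits -/

/-- forward map of a portrait -/
def fwd (l : V → Equiv.Perm (Fin 3)) : V → V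
  | [] => []
  | (i :: v) => l v i :: fwd l v

/-- backward map of a portrait -/
def bwd (l : V → Equiv.Perm (Fin 3)) : V → V
  | [] => []
  | (i :: v) => (l (bwd l v))⁻¹ i :: bwd l v

theorem fwd_bwd (l : V → Equiv.Perm (Fin 3)) (v : V) : fwd l (bwd l v) = v := by
  induction v with
  | nil => rfl
  | cons i v ih => simp [fwd, bwd, ih]

theorem bwd_fwd (l : V → Equiv.Perm (Fin 3)) (v : V) : bwd l (fwd l v) = v := by
  induction v with
  | nil => rfl
  | cons i v ih => simp [fwd, bwd, ih]

/-- the automorphism with a given portrait -/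
def ofP (l : V → Equiv.Perm (Fin 3)) : A :=
  ⟨⟨fwd l, bwd l, bwd_fwd l, fwd_bwd l⟩, fun v => by cases v <;> rfl⟩

theorem ap_ofP (l : V → Equiv.Perm (Fin 3)) (v : V) : ap (ofP l) v = fwd l v := rfl

@[simp] theorem lab_ofP (l : V → Equiv.Perm (Fin 3)) (v : V) : lab (ofP l) v = l v := by
  apply Equiv.ext
  intro i
  have := ap_cons (ofP l) i v
  rw [ap_ofP, ap_ofP, fwd] at this
  simp only [List.cons.injEq, and_true] at this
  exact this.symm

theorem ofP_lab (g : A) : ofP (lab g) = g := lab_ext (fun v => by simp)

/-- if all labels at proper suffixes are trivial, the vertex is fixed -/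
theorem fix_of_lab {g : A} {v : V} (h : ∀ u, u <:+ v → u ≠ v → lab g u = 1) : ap g v = v := by
  induction v with
  | nil => simp
  | cons i v ih =>
    have h1 : lab g v = 1 := h v (List.suffix_cons i v) (by
      intro hh
      have := congrArg List.length hh
      simp at this)
    rw [ap_cons, h1, ih]
    · rfl
    · intro u hu hne
      apply h u (hu.trans (List.suffix_cons i v))
      intro hh
      have h2 := hu.length_le
      rw [hh] at h2
      simp at h2

/-- `g` is supported on the subtree of `v` -/
def Supp (v : V) (g : A) : Prop := ∀ x, ¬ v <:+ x → ap g x = x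

theorem Supp.one (v : V) : Supp v 1 := fun _ _ => rfl

theorem Supp.mul {v : V} {g h : A} (hg : Supp v g) (hh : Supp v h) : Supp v (g * h) := by
  intro x hx
  rw [ap_mul, hh x hx, hg x hx]

theorem Supp.inv {v : V} {g : A} (hg : Supp v g) : Supp v g⁻¹ := by
  intro x hx
  rw [ap_inv_eq_iff, hg x hx]

theorem Supp.conj {v : V} {k : A} (hk : Supp v k) (g : A) : Supp (ap g v) (g * k * g⁻¹) := by
  intro x hx
  rw [ap_mul, ap_mul, hk, ap_ap_inv]
  intro h
  apply hx
  have := ap_suffix g h
  simpa using this

theorem Supp.mono {v w : V} (h : v <:+ w) {g : A} (hg : Supp w g) : Supp v g := by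
  intro x hx
  apply hg
  intro h2
  exact hx (h.trans h2)

theorem suffix_eq_of_length {v w x : V} (hv : v <:+ x) (hw : w <:+ x)
    (h : v.length = w.length) : v = w := by
  rw [suffix_iff_drop] at hv hw
  rw [hv, hw, h]

theorem suffix_of_le {v w x : V} (hv : v <:+ x) (hw : w <:+ x)
    (h : v.length ≤ w.length) : v <:+ w := List.suffix_of_suffix_length_le hv hw h

/-- supported on `v` implies fixing `v` -/
theorem Supp.fix_self {v : V} {g : A} (hg : Supp v g) : ap g v = v := by
  by_contra hne
  have h1 : ¬ v <:+ ap g v := by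
    intro h
    apply hne
    have := h.eq_of_length (by simp)
    exact this.symm
  have h2 := hg _ h1
  exact hne (ap_inj g h2)

theorem Supp.fix_of_length_le {v : V} {g : A} (hg : Supp v g) {x : V}
    (h : x.length ≤ v.length) : ap g x = x := by
  by_cases hx : v <:+ x
  · have : v = x := hx.eq_of_length (le_antisymm hx.length_le h)
    rw [← this]
    exact hg.fix_self
  · exact hg x hx

/-- elements supported on incomparable subtrees commute -/
theorem Supp.commute {v w : V} {g h : A} (hg : Supp v g) (hh : Supp w h)
    (h1 : ¬ v <:+ w) (h2 : ¬ w <:+ v) : g * h = h * g := by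
  apply A_ext
  intro x
  rw [ap_mul, ap_mul]
  by_cases hv : v <:+ x
  · have hw : ¬ w <:+ x := by
      intro hw
      rcases le_total v.length w.length with hl | hl
      · exact h1 (suffix_of_le hv hw hl)
      · exact h2 (suffix_of_le hw hv hl)
    have hgx : v <:+ ap g x := by
      have := ap_suffix g hv
      rwa [hg.fix_self] at this
    have hw' : ¬ w <:+ ap g x := by
      intro hw
      rcases le_total v.length w.length with hl | hl
      · exact h1 (suffix_of_le hgx hw hl)
      · exact h2 (suffix_of_le hw hgx hl)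
    rw [hh x hw, hh _ hw']
  · rw [hg x hv]
    by_cases hw : w <:+ x
    · have hhx : w <:+ ap h x := by
        have := ap_suffix h hw
        rwa [hh.fix_self] at this
      have hv' : ¬ v <:+ ap h x := by
        intro hv
        rcases le_total v.length w.length with hl | hl
        · exact h1 (suffix_of_le hv hhx hl)
        · exact h2 (suffix_of_le hhx hv hl)
      rw [hg _ hv']
    · rw [hh x hw, hg x hv]

theorem not_suffix_of_ne {v w : V} (h : v.length = w.length) (hne : v ≠ w) : ¬ v <:+ w := by
  intro hs
  exact hne (hs.eq_of_length h)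

theorem Supp.commute_of_ne {v w : V} {g h : A} (hg : Supp v g) (hh : Supp w h)
    (hl : v.length = w.length) (hne : v ≠ w) : g * h = h * g :=
  hg.commute hh (not_suffix_of_ne hl hne) (not_suffix_of_ne hl.symm hne.symm)

/-- supported on two incomparable subtrees: trivial -/
theorem Supp.eq_one {v w : V} {g : A} (hg : Supp v g) (hh : Supp w g)
    (h1 : ¬ v <:+ w) (h2 : ¬ w <:+ v) : g = 1 := by
  apply A_ext
  intro x
  rw [ap_one]
  by_cases hv : v <:+ x
  · apply hh
    intro hw
    rcases le_total v.length w.length with hl | hl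
    · exact h1 (suffix_of_le hv hw hl)
    · exact h2 (suffix_of_le hw hv hl)
  · exact hg x hv

/-- a moved vertex has moved extensions -/
theorem moved_append {g : A} {x : V} (h : ap g x ≠ x) (t : V) : ap g (t ++ x) ≠ t ++ x := by
  intro h2
  exact h (fix_of_suffix (List.suffix_append t x) h2)

/-! ### Rotations -/

/-- the 3-cycle at `u` -/
def rot (u : V) : A := ofP (fun v => if v = u then finRotate 3 else 1)

theorem lab_rot (u v : V) : lab (rot u) v = if v = u then finRotate 3 else 1 := by
  unfold rot; rw [lab_ofP]

theorem sg_finRotate : sg (finRotate 3) = 0 := by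
  unfold sg
  rw [sign_finRotate]
  simp

@[simp] theorem par_rot (u v : V) : par (rot u) v = 0 := by
  unfold par
  rw [lab_rot]
  split_ifs
  · exact sg_finRotate
  · exact sg_one

theorem supp_rot (u : V) : Supp u (rot u) := by
  intro x hx
  apply fix_of_lab
  intro w hw _
  rw [lab_rot, if_neg]
  rintro rfl
  exact hx hw

@[simp] theorem rot_self (u : V) : ap (rot u) u = u := (supp_rot u).fix_self

theorem rot_cons (u : V) (i : Fin 3) : ap (rot u) (i :: u) = finRotate 3 i :: u := by
  rw [ap_cons, lab_rot, if_pos rfl, rot_self]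

theorem rot_cons_ne (u : V) (i : Fin 3) : ap (rot u) (i :: u) ≠ i :: u := by
  rw [rot_cons]
  intro h
  simp only [List.cons.injEq, and_true] at h
  revert h
  revert i
  decide

theorem rot_ne_one (u : V) : rot u ≠ 1 := by
  intro h
  apply rot_cons_ne u 0
  rw [h, ap_one]

theorem rot_pow_cons (u : V) (i : Fin 3) (n : ℕ) :
    ap ((rot u)^n) (i :: u) = ((finRotate 3)^n) i :: u := by
  induction n generalizing i with
  | zero => simp
  | succ n ih =>
    rw [pow_succ, ap_mul, rot_cons, ih, pow_succ]
    rfl

theorem rot_move (u : V) (i j : Fin 3) : ∃ n : ℕ, ap ((rot u)^n) (i :: u) = j :: u := by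
  have h : ∀ i j : Fin 3, ∃ n : ℕ, n < 3 ∧ ((finRotate 3)^n) i = j := by decide
  obtain ⟨n, _, hn⟩ := h i j
  exact ⟨n, by rw [rot_pow_cons, hn]⟩

/-- an element commuting with the rotation at `x` fixes `x` -/
theorem fix_of_commute_rot {g : A} {x : V} (h : g * rot x = rot x * g) : ap g x = x := by
  by_contra hne
  have h1 : Supp (ap g x) (rot x) := by
    have := (supp_rot x).conj g
    rwa [h, mul_assoc, mul_inv_cancel, mul_one] at this
  have hl : (ap g x).length = x.length := length_ap g x
  exact rot_ne_one x ((supp_rot x).eq_one h1 (not_suffix_of_ne hl.symm (Ne.symm hne))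
    (not_suffix_of_ne hl hne))

/-- the commutator used below -/
def cm (k l : A) : A := k⁻¹ * l * k * l⁻¹

theorem cm_rot_ne_one (u : V) : cm (rot u) (rot (0 :: u)) ≠ 1 := by
  intro h
  have h2 : rot (0 :: u) * rot u = rot u * rot (0 :: u) := by
    have : (rot u)⁻¹ * rot (0 :: u) * rot u = rot (0 :: u) := by
      unfold cm at h
      exact mul_inv_eq_one.1 h
    calc rot (0 :: u) * rot u = rot u * ((rot u)⁻¹ * rot (0 :: u) * rot u) := by group
      _ = _ := by rw [this]
  exact rot_cons_ne u 0 (fix_of_commute_rot h2.symm)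

end Pool.Agent.Helper59_Branch
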