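import Pool.Agent.Helper59_Branch.Top

set_option autoImplicit false

namespace Pool.Agent.Helper59_Branch

/-! ### The action on the boundary -/

/-- the boundary of the tree: infinite words, written root first -/
abbrev X := ℕ → Fin 3

/-- the initial segment of length `n` of an infinite word, as a vertex -/
def pre (x : X) : ℕ → V
  | 0 => []
  | (n + 1) => x n :: pre x n

@[simp] theorem length_pre (x : X) (n : ℕ) : (pre x n).length = n := by
  induction n with
  | zero => rfl
  | succ n ih => simp [pre, ih]

theorem X_ext {x x' : X} (h : ∀ n, pre x (n + 1) = pre x' (n + 1)) : x = x' := by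
  funext n
  have := h n
  simp only [pre, List.cons.injEq] at this
  exact this.1

/-- the action of an automorphism on the boundary -/
def bdf (g : A) (x : X) : X := fun n => (ap g (pre x (n + 1))).headI

theorem pre_bdf (g : A) (x : X) (n : ℕ) : pre (bdf g x) n = ap g (pre x n) := by
  induction n with
  | zero => simp [pre]
  | succ n ih =>
    rw [pre, ih, pre, ap_cons]
    simp only [bdf, pre, ap_cons]
    rfl

/-- the boundary action as a homomorphism -/
def bd : A →* Equiv.Perm X where
  toFun := fun g => ⟨bdf g, bdf g⁻¹,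
    fun x => X_ext (fun n => by rw [pre_bdf, pre_bdf, ap_inv_ap]),
    fun x => X_ext (fun n => by rw [pre_bdf, pre_bdf, ap_ap_inv])⟩
  map_one' := by
    apply Equiv.ext
    intro x
    exact X_ext (fun n => by
      change pre (bdf 1 x) (n + 1) = pre x (n + 1)
      rw [pre_bdf, ap_one])
  map_mul' := fun g h => by
    apply Equiv.ext
    intro x
    exact X_ext (fun n => by
      change pre (bdf (g * h) x) (n + 1) = pre (bdf g (bdf h x)) (n + 1)
      rw [pre_bdf, pre_bdf, pre_bdf, ap_mul])

theorem pre_bd (g : A) (x : X) (n : ℕ) : pre (bd g x) n = ap g (pre x n) := pre_bdf g x n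

theorem exists_pre (v : V) : ∃ x : X, pre x v.length = v := by
  have h : ∀ (x x' : X) (n : ℕ), (∀ k < n, x k = x' k) → pre x n = pre x' n := by
    intro x x' n
    induction n with
    | zero => intro _; rfl
    | succ n ih =>
      intro h
      rw [pre, pre, ih (fun k hk => h k (by omega)), h n (by omega)]
  induction v with
  | nil => exact ⟨fun _ => 0, rfl⟩
  | cons i v ih =>
    obtain ⟨x, hx⟩ := ih
    refine ⟨Function.update x v.length i, ?_⟩
    rw [List.length_cons, pre, Function.update_self]
    congr 1
    rw [← hx]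
    simp only [length_pre]
    apply h
    intro k hk
    rw [Function.update_of_ne (by omega)]

theorem bd_injective : Function.Injective bd := by
  intro g h hgh
  apply A_ext
  intro v
  obtain ⟨x, hx⟩ := exists_pre v
  rw [← hx, ← pre_bd, ← pre_bd, hgh]

/-! ### The exchange of the cones `0` and `11` -/

/-- the exchange of the subtrees at `0` and `11`, on vertices -/
def tau : V → V
  | [] => []
  | [a] => if a = 0 then [1, 1] else [a]
  | [a, b] => if a = 1 ∧ b = 1 then [0] else a :: tau [b]
  | a :: b :: c :: v => a :: tau (b :: c :: v)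

theorem tau_cons (a : Fin 3) {u : V} (h1 : u ≠ []) (h2 : u ≠ [1]) :
    tau (a :: u) = a :: tau u := by
  match u, h1, h2 with
  | [b], _, h2 =>
    have hb : b ≠ 1 := by
      rintro rfl
      exact h2 rfl
    change (if a = 1 ∧ b = 1 then [0] else a :: tau [b]) = a :: tau [b]
    rw [if_neg (fun h => hb h.2)]
  | b :: c :: v, _, _ => rfl

theorem tau_ne_nil {u : V} (h : u ≠ []) : tau u ≠ [] := by
  match u, h with
  | [a], _ =>
    unfold tau
    split_ifs <;> simp
  | [a, b], _ =>
    unfold tau
    split_ifs <;> simp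
  | a :: b :: c :: v, _ =>
    unfold tau
    simp

theorem tau_ne_one {u : V} (h : u ≠ [1]) : tau u ≠ [1] := by
  match u, h with
  | [], _ => simp [tau]
  | [a], h =>
    unfold tau
    split_ifs
    · simp
    · exact h
  | [a, b], _ =>
    unfold tau
    split_ifs
    · simp
    · have := tau_ne_nil (u := [b]) (by simp)
      intro h2
      simp only [List.cons.injEq] at h2
      exact this h2.2
  | a :: b :: c :: v, _ =>
    unfold tau
    have := tau_ne_nil (u := b :: c :: v) (by simp)
    intro h2
    simp only [List.cons.injEq] at h2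
    exact this h2.2

theorem tau_tau (v : V) : tau (tau v) = v := by
  induction v with
  | nil => rfl
  | cons a u ih =>
    by_cases h1 : u = []
    · rw [h1]
      revert a
      decide
    · by_cases h2 : u = [1]
      · rw [h2]
        revert a
        decide
      · rw [tau_cons a h1 h2, tau_cons a (tau_ne_nil h1) (tau_ne_one h2), ih]

theorem length_tau_one (a : Fin 3) : (tau [a]).length ≤ 2 := by
  revert a; decide

theorem length_tau_two (a : Fin 3) : (tau [a, 1]).length ≤ 2 := by
  revert a; decide

theorem length_tau (v : V) : (tau v).length ≤ v.length + 1 := by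
  induction v with
  | nil => simp [tau]
  | cons a u ih =>
    by_cases h1 : u = []
    · rw [h1]
      revert a
      decide
    · by_cases h2 : u = [1]
      · rw [h2]
        revert a
        decide
      · rw [tau_cons a h1 h2]
        simpa using ih

theorem tau_append_zero (s : V) : tau (s ++ [0]) = s ++ [1, 1] := by
  induction s with
  | nil => rfl
  | cons a s ih =>
    rw [List.cons_append, tau_cons a (by simp), ih]
    · rfl
    · intro h
      have := congrArg List.getLast? h
      simp at this

theorem tau_append_oneone (s : V) : tau (s ++ [1, 1]) = s ++ [0] := by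
  rw [← tau_append_zero, tau_tau]

/-- letters added in front -/
def cons (a : Fin 3) (s : X) : X
  | 0 => a
  | (n + 1) => s n

/-- the shift -/
def sh (s : X) : X := fun n => s (n + 1)

theorem cons_sh (x : X) : cons (x 0) (sh x) = x := by
  funext n
  cases n <;> rfl

@[simp] theorem sh_cons (a : Fin 3) (s : X) : sh (cons a s) = s := rfl
@[simp] theorem cons_zero (a : Fin 3) (s : X) : cons a s 0 = a := rfl
@[simp] theorem cons_succ (a : Fin 3) (s : X) (n : ℕ) : cons a s (n + 1) = s n := rfl
@[simp] theorem cons_one (a : Fin 3) (s : X) : cons a s 1 = s 0 := rfl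

theorem pre_cons (a : Fin 3) (s : X) (n : ℕ) : pre (cons a s) (n + 1) = pre s n ++ [a] := by
  induction n with
  | zero => rfl
  | succ n ih =>
    rw [pre, ih, pre]
    rfl

theorem pre_cons_cons (a b : Fin 3) (s : X) (n : ℕ) :
    pre (cons a (cons b s)) (n + 2) = pre s n ++ [b, a] := by
  rw [pre_cons, pre_cons]
  simp

/-- the exchange of the cones `0` and `11`, on the boundary -/
def hf (x : X) : X :=
  if x 0 = 0 then cons 1 (cons 1 (sh x))
  else if x 0 = 1 ∧ x 1 = 1 then cons 0 (sh (sh x)) else x

theorem hf_zero (s : X) : hf (cons 0 s) = cons 1 (cons 1 s) := by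
  unfold hf
  rw [if_pos (cons_zero 0 s), sh_cons]

theorem hf_oneone (s : X) : hf (cons 1 (cons 1 s)) = cons 0 s := by
  unfold hf
  rw [if_neg (by simp), if_pos ⟨rfl, rfl⟩, sh_cons, sh_cons]

theorem hf_other {x : X} (h0 : x 0 ≠ 0) (h1 : ¬ (x 0 = 1 ∧ x 1 = 1)) : hf x = x := by
  unfold hf
  rw [if_neg h0, if_neg h1]

theorem cases_X (x : X) : (∃ s, x = cons 0 s) ∨ (∃ s, x = cons 1 (cons 1 s)) ∨
    (x 0 ≠ 0 ∧ ¬ (x 0 = 1 ∧ x 1 = 1)) := by
  by_cases h0 : x 0 = 0
  · left
    exact ⟨sh x, by rw [← h0, cons_sh]⟩
  · by_cases h1 : x 0 = 1 ∧ x 1 = 1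
    · right; left
      refine ⟨sh (sh x), ?_⟩
      have h2 : cons 1 (sh (sh x)) = sh x := by
        have := cons_sh (sh x)
        rwa [show sh x 0 = 1 from h1.2] at this
      rw [h2]
      have := cons_sh x
      rwa [h1.1, eq_comm] at this
    · right; right
      exact ⟨h0, h1⟩

theorem hf_hf (x : X) : hf (hf x) = x := by
  rcases cases_X x with ⟨s, rfl⟩ | ⟨s, rfl⟩ | ⟨h0, h1⟩
  · rw [hf_zero, hf_oneone]
  · rw [hf_oneone, hf_zero]
  · rw [hf_other h0 h1, hf_other h0 h1]

/-- the exchange as a permutation of the boundary -/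
def hX : Equiv.Perm X := ⟨hf, hf, hf_hf, hf_hf⟩

theorem hX_apply (x : X) : hX x = hf x := rfl

theorem hX_inv : hX⁻¹ = hX := rfl

theorem hX_mul_self : hX * hX = 1 := Equiv.ext hf_hf

theorem tau_pre_other {x : X} (h0 : x 0 ≠ 0) (h1 : ¬ (x 0 = 1 ∧ x 1 = 1)) (n : ℕ) :
    tau (pre x n) = pre x n := by
  induction n with
  | zero => rfl
  | succ n ih =>
    match n with
    | 0 =>
      simp only [pre, tau]
      rw [if_neg h0]
    | 1 =>
      simp only [pre, tau]
      rw [if_neg (fun h => h1 ⟨h.2, h.1⟩), if_neg h0]
    | n + 2 =>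
      rw [pre, tau_cons, ih]
      · simp [pre]
      · simp [pre]

/-- automorphisms fixing level 2 are conjugated by the exchange to automorphisms -/
theorem exists_conj_h {g : A} (hg : ∀ v : V, v.length ≤ 2 → ap g v = v) :
    ∃ g' : A, (∀ v, ap g' v = tau (ap g (tau v))) ∧ hX * bd g * hX = bd g' := by
  have hne : ∀ {v : V}, v ≠ [] → ap g v ≠ [] := fun h => ap_ne_nil g h
  have hne1 : ∀ {v : V}, v ≠ [1] → ap g v ≠ [1] := by
    intro v hv h
    apply hv
    apply ap_inj g
    rw [h, hg [1] (by simp)]
  let p : Equiv.Perm V :=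
    { toFun := fun v => tau (ap g (tau v))
      invFun := fun v => tau (ap g⁻¹ (tau v))
      left_inv := fun v => by
        simp only
        rw [tau_tau, ap_inv_ap, tau_tau]
      right_inv := fun v => by
        simp only
        rw [tau_tau, ap_ap_inv, tau_tau] }
  have hp : ∀ v : V, p v.tail = (p v).tail := by
    intro v
    change tau (ap g (tau v.tail)) = (tau (ap g (tau v))).tail
    cases v with
    | nil => simp [tau]
    | cons a u =>
      rw [List.tail_cons]
      by_cases h1 : u = []
      · rw [h1]
        have h2 : (tau [a]).length ≤ 2 := by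
          revert a; decide
        rw [hg _ h2, tau_tau]
        simp [tau]
      · by_cases h2 : u = [1]
        · rw [h2]
          have h3 : (tau [a, 1]).length ≤ 2 := by
            revert a; decide
          rw [hg _ h3, tau_tau, hg _ (by decide), tau_tau]
          simp
        · rw [tau_cons a h1 h2, ap_cons,
            tau_cons _ (hne (tau_ne_nil h1)) (hne1 (tau_ne_one h2))]
          simp
  let g' : A := ⟨p, hp⟩
  have hg' : ∀ v, ap g' v = tau (ap g (tau v)) := fun v => rfl
  refine ⟨g', hg', ?_⟩
  apply Equiv.ext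
  intro x
  change hf (bd g (hf x)) = bd g' x
  rcases cases_X x with ⟨s, rfl⟩ | ⟨s, rfl⟩ | ⟨h0, h1⟩
  · rw [hf_zero]
    set t := bd g (cons 1 (cons 1 s)) with ht
    have hpt : ∀ n, pre t n = ap g (pre (cons 1 (cons 1 s)) n) := fun n => pre_bd g _ n
    have ht2 : pre t 2 = [1, 1] := by
      rw [hpt]
      exact hg _ (by simp)
    have ht0 : t 0 = 1 ∧ t 1 = 1 := by
      simp only [pre, List.cons.injEq, and_true] at ht2
      exact ⟨ht2.2, ht2.1⟩
    obtain ⟨t', ht'⟩ : ∃ t', t = cons 1 (cons 1 t') := by
      rcases cases_X t with ⟨s', hs'⟩ | h | ⟨_, h1⟩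
      · rw [hs'] at ht0
        exact absurd ht0.1 (by simp)
      · exact h
      · exact absurd ht0 h1
    rw [ht', hf_oneone]
    apply X_ext
    intro n
    rw [pre_cons, pre_bd, pre_cons, hg', tau_append_zero, ← pre_cons_cons, ← hpt, ht',
      pre_cons_cons, tau_append_oneone]
  · rw [hf_oneone]
    set t := bd g (cons 0 s) with ht
    have hpt : ∀ n, pre t n = ap g (pre (cons 0 s) n) := fun n => pre_bd g _ n
    have ht1 : pre t 1 = [0] := by
      rw [hpt]
      exact hg _ (by simp)
    have ht0 : t 0 = 0 := by
      simp only [pre, List.cons.injEq, and_true] at ht1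
      exact ht1
    obtain ⟨t', ht'⟩ : ∃ t', t = cons 0 t' := ⟨sh t, by rw [← ht0, cons_sh]⟩
    rw [ht', hf_zero]
    apply X_ext
    intro n
    cases n with
    | zero =>
      rw [pre_bd]
      change [1] = ap g' [1]
      rw [hg']
      change [1] = tau (ap g [1])
      rw [hg _ (by simp)]
      rfl
    | succ n =>
      rw [pre_cons_cons, pre_bd, pre_cons_cons, hg', tau_append_oneone, ← pre_cons, ← hpt, ht',
        pre_cons, tau_append_zero]
  · rw [hf_other h0 h1]
    set t := bd g x with ht
    have hpt : ∀ n, pre t n = ap g (pre x n) := fun n => pre_bd g _ n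
    have ht2 : pre t 2 = pre x 2 := by
      rw [hpt]
      exact hg _ (by simp)
    simp only [pre, List.cons.injEq, and_true] at ht2
    have h0' : t 0 ≠ 0 := by rw [ht2.2]; exact h0
    have h1' : ¬ (t 0 = 1 ∧ t 1 = 1) := by rw [ht2.2, ht2.1]; exact h1
    rw [hf_other h0' h1']
    apply X_ext
    intro n
    rw [pre_bd g', hg', tau_pre_other h0 h1, ← hpt, tau_pre_other h0' h1']

theorem conv_tau {c : V → ZMod 2} (hc : ∀ v : V, v.length ≤ 2 → c v = 0) (v : V)
    (y : ℕ → ZMod 2) : conv (fun x => c (tau x)) v y = conv c (tau v) y := by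
  induction v generalizing y with
  | nil => rfl
  | cons a u ih =>
    have h3 : (a :: u).length ≤ 2 → (tau (a :: u)).length ≤ 2 →
        conv (fun x => c (tau x)) (a :: u) y = conv c (tau (a :: u)) y := by
      intro hl1 hl2
      rw [conv_eq_zero (c := c) (v := tau (a :: u))
        (fun w hw => hc w (hw.length_le.trans hl2))]
      apply conv_eq_zero
      intro w hw
      have hwl := hw.length_le
      rcases List.suffix_cons_iff.1 hw with h | h
      · rw [h]; exact hc _ hl2
      · apply hc
        have := length_tau w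
        have := h.length_le
        simp only [List.length_cons] at hl1
        omega
    by_cases h1 : u = []
    · apply h3
      · rw [h1]; simp
      · rw [h1]; exact length_tau_one a
    · by_cases h2 : u = [1]
      · apply h3
        · rw [h2]; simp
        · rw [h2]; exact length_tau_two a
      · rw [tau_cons a h1 h2, conv_cons, conv_cons, ih, tau_cons a h1 h2]

/-- conjugation by the exchange maps `Kf y (m + 1)` into `Kf y m`, for `m ≥ 1` -/
theorem conj_h_mem {y : ℕ → ZMod 2} (hy : y 0 = 1) {m : ℕ} {g : A}
    (hg : g ∈ Kf y (m + 2)) : ∃ g' ∈ Kf y m, hX * bd g * hX = bd g' := by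
  have hg2 : ∀ v : V, v.length ≤ 2 → ap g v = v := fun v hv => (hg.2 v (by omega)).1
  obtain ⟨g', hg', hconj⟩ := exists_conj_h hg2
  obtain ⟨c, hc⟩ := hg.1
  have hc2 : ∀ v : V, v.length ≤ m + 2 → c v = 0 := fun v hv => hc.eq_zero_of_Kf hy hg hv
  have hlow : ∀ v : V, v = [] ∨ v = [1] → ∀ i : Fin 3, (tau (i :: v)).length ≤ 2 := by
    rintro v (rfl | rfl) i
    · exact length_tau_one i
    · exact length_tau_two i
  have hlab : ∀ v : V, par g' v = par g (tau v) := by
    intro v
    by_cases h1 : v = [] ∨ v = [1]
    · have h2 : ∀ i : Fin 3, ap g' (i :: v) = i :: v := by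
        intro i
        rw [hg', hg2 _ (hlow v h1 i), tau_tau]
      rw [par_eq_zero_of_fix h2]
      symm
      have hl : v.length ≤ 1 := by
        rcases h1 with rfl | rfl <;> simp
      exact (hg.2 (tau v) (by have := length_tau v; omega)).2
    · rw [not_or] at h1
      obtain ⟨h2, h3⟩ := h1
      have h4 : lab g' v = lab g (tau v) := by
        apply Equiv.ext
        intro i
        have h5 := hg' (i :: v)
        have h6 : ap g (tau v) ≠ [1] := by
          intro h
          apply tau_ne_one h3
          apply ap_inj g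
          rw [h, hg2 [1] (by simp)]
        rw [ap_cons, tau_cons i h2 h3, ap_cons, tau_cons _ (ap_ne_nil g (tau_ne_nil h2)) h6]
          at h5
        simp only [List.cons.injEq] at h5
        exact h5.1
      unfold par
      rw [h4]
  refine ⟨g', ⟨⟨fun x => c (tau x), ?_, ?_, ?_⟩, ?_⟩, hconj⟩
  · exact hc.nil
  · intro v
    by_cases h1 : v = [] ∨ v = [1]
    · have h2 : ∀ i : Fin 3, c (tau (i :: v)) = 0 := by
        intro i
        apply hc2
        have := hlow v h1 i
        omega
      rw [h2, h2, h2]
      simp
    · rw [not_or] at h1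
      obtain ⟨h2, h3⟩ := h1
      rw [tau_cons _ h2 h3, tau_cons _ h2 h3, tau_cons _ h2 h3]
      exact hc.sum (tau v)
  · intro v
    rw [hlab, hc.par_eq, conv_tau (fun v hv => hc2 v (by omega))]
  · intro v hv
    have h1 := length_tau v
    have h2 := hg.2 (tau v) (by omega)
    constructor
    · rw [hg', h2.1, tau_tau]
    · rw [hlab]
      exact h2.2

end Pool.Agent.Helper59_Branch
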