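import Pool.Agent.Helper59_Branch.Top

set_option autoImplicit false

open Topology

namespace Pool.Agent.Helper59_Branch

/-! ### Commensurability gives a local isomorphism -/

section

variable {y z : ℕ → ZMod 2} {P : Subgroup ↥(K y)} {Q : Subgroup ↥(K z)}

open Classical in
/-- the total function extending an isomorphism of subgroups -/
noncomputable def totF (φ : ↥P ≃* ↥Q) (g : A) : A :=
  if h : ∃ a : ↥P, ((a : ↥(K y)) : A) = g then ((φ h.choose : ↥(K z)) : A) else 1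

theorem totF_spec (φ : ↥P ≃* ↥Q) (a : ↥P) :
    totF φ ((a : ↥(K y)) : A) = ((φ a : ↥(K z)) : A) := by
  unfold totF
  have h : ∃ b : ↥P, ((b : ↥(K y)) : A) = ((a : ↥(K y)) : A) := ⟨a, rfl⟩
  rw [dif_pos h]
  have h1 : h.choose = a := Subtype.ext (Subtype.ext h.choose_spec)
  rw [h1]

theorem mem_map_iff {g : A} : g ∈ P.map (K y).subtype ↔ ∃ a : ↥P, ((a : ↥(K y)) : A) = g := by
  rw [Subgroup.mem_map]
  constructor
  · rintro ⟨x, hx, rfl⟩
    exact ⟨⟨x, hx⟩, rfl⟩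
  · rintro ⟨a, rfl⟩
    exact ⟨a.1, a.2, rfl⟩

theorem cont_aux (hP : IsOpen (P : Set ↥(K y))) (φ : ↥P ≃* ↥Q) (hφ : Continuous φ) (r : ℕ) :
    ∃ M, ∀ g ∈ Kf y M, g ∈ P.map (K y).subtype ∧ totF φ g ∈ Kf z r := by
  -- the set of elements of `P` mapped into `Kf z r` is open in `K y`
  have h1 : IsOpen {a : ↥P | (((φ a : ↥Q) : ↥(K z)) : A) ∈ Kf z r} := by
    have := (isOpen_Kf z r).preimage (continuous_subtype_val.comp hφ)
    exact this
  have h2 : IsOpen (Subtype.val '' {a : ↥P | (((φ a : ↥Q) : ↥(K z)) : A) ∈ Kf z r}) :=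
    hP.isOpenMap_subtype_val _ h1
  obtain ⟨O, hO, hO2⟩ := isOpen_induced_iff.1 h2
  have h3 : (1 : A) ∈ O := by
    have : (1 : ↥(K y)) ∈ Subtype.val ⁻¹' O := by
      rw [hO2]
      refine ⟨1, ?_, rfl⟩
      change (((φ 1 : ↥Q) : ↥(K z)) : A) ∈ Kf z r
      rw [map_one]
      exact (Kf z r).one_mem
    exact this
  obtain ⟨M, hM⟩ := exists_Kf_subset y hO h3
  refine ⟨M, fun g hg => ?_⟩
  have h4 : (⟨g, hg.1⟩ : ↥(K y)) ∈ Subtype.val ⁻¹' O := hM hg
  rw [hO2] at h4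
  obtain ⟨a, ha, hag⟩ := h4
  have h5 : ((a : ↥(K y)) : A) = g := congrArg Subtype.val hag
  refine ⟨mem_map_iff.2 ⟨a, h5⟩, ?_⟩
  rw [← h5, totF_spec]
  exact ha

/-- the local isomorphism given by an isomorphism of open subgroups -/
noncomputable def locIsoOf (hP : IsOpen (P : Set ↥(K y))) (hQ : IsOpen (Q : Set ↥(K z)))
    (φ : ↥P ≃ₜ* ↥Q) : LocIso y z where
  A1 := P.map (K y).subtype
  A2 := Q.map (K z).subtype
  le1 := by
    intro g hg
    obtain ⟨a, rfl⟩ := mem_map_iff.1 hg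
    exact a.1.2
  le2 := by
    intro g hg
    obtain ⟨a, rfl⟩ := mem_map_iff.1 hg
    exact a.1.2
  F := totF φ.toMulEquiv
  F' := totF φ.symm.toMulEquiv
  map1 := by
    intro g hg
    obtain ⟨a, rfl⟩ := mem_map_iff.1 hg
    rw [totF_spec]
    exact mem_map_iff.2 ⟨_, rfl⟩
  map2 := by
    intro g hg
    obtain ⟨a, rfl⟩ := mem_map_iff.1 hg
    rw [totF_spec]
    exact mem_map_iff.2 ⟨_, rfl⟩
  inv1 := by
    intro g hg
    obtain ⟨a, rfl⟩ := mem_map_iff.1 hg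
    rw [totF_spec, totF_spec]
    have : φ.symm.toMulEquiv (φ.toMulEquiv a) = a := φ.symm_apply_apply a
    rw [this]
  inv2 := by
    intro g hg
    obtain ⟨a, rfl⟩ := mem_map_iff.1 hg
    rw [totF_spec, totF_spec]
    have : φ.toMulEquiv (φ.symm.toMulEquiv a) = a := φ.apply_symm_apply a
    rw [this]
  mul1 := by
    intro g hg h hh
    obtain ⟨a, rfl⟩ := mem_map_iff.1 hg
    obtain ⟨b, rfl⟩ := mem_map_iff.1 hh
    have h1 := totF_spec φ.toMulEquiv (a * b)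
    rw [map_mul] at h1
    rw [totF_spec, totF_spec]
    exact h1
  mul2 := by
    intro g hg h hh
    obtain ⟨a, rfl⟩ := mem_map_iff.1 hg
    obtain ⟨b, rfl⟩ := mem_map_iff.1 hh
    have h1 := totF_spec φ.symm.toMulEquiv (a * b)
    rw [map_mul] at h1
    rw [totF_spec, totF_spec]
    exact h1
  c1 := fun r => cont_aux hP φ.toMulEquiv φ.continuous_toFun r
  c2 := fun r => cont_aux hQ φ.symm.toMulEquiv φ.symm.continuous_toFun r

end

theorem eq_of_commensurable {y z : ℕ → ZMod 2} (hy : y 0 = 1) (hz : z 0 = 1)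
    (h : Commensurable ↥(K y) ↥(K z)) : y = z := by
  obtain ⟨P, Q, hP, hQ, ⟨φ⟩⟩ := h
  exact (locIsoOf hP hQ φ).eq hy hz

/-! ### Commensurability is an equivalence relation -/

theorem Commensurable.refl (U : Type) [Group U] [TopologicalSpace U] : Commensurable U U :=
  ⟨⊤, ⊤, isOpen_univ, isOpen_univ, ⟨ContinuousMulEquiv.refl _⟩⟩

theorem Commensurable.symm {U W : Type} [Group U] [TopologicalSpace U] [Group W]
    [TopologicalSpace W] (h : Commensurable U W) : Commensurable W U := by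
  obtain ⟨P, Q, hP, hQ, ⟨φ⟩⟩ := h
  exact ⟨Q, P, hQ, hP, ⟨φ.symm⟩⟩

/-- a continuous isomorphism restricts to a subgroup of the target -/
theorem restrict_aux {U W : Type} [Group U] [TopologicalSpace U] [Group W]
    [TopologicalSpace W] {P : Subgroup U} {Q : Subgroup W} (hP : IsOpen (P : Set U))
    (φ : ↥P ≃ₜ* ↥Q) {Q' : Subgroup W} (hQ' : IsOpen (Q' : Set W)) (hle : Q' ≤ Q) :
    ∃ P' : Subgroup U, IsOpen (P' : Set U) ∧ Nonempty (↥P' ≃ₜ* ↥Q') := by
  -- `P'` is the set of elements of `P` mapped into `Q'`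
  let P' : Subgroup U := (Q'.comap (Q.subtype.comp φ.toMulEquiv.toMonoidHom)).map P.subtype
  have hmem : ∀ u : U, u ∈ P' ↔ ∃ h : u ∈ P, ((φ ⟨u, h⟩ : ↥Q) : W) ∈ Q' := by
    intro u
    constructor
    · rintro ⟨x, hx, rfl⟩
      exact ⟨x.2, hx⟩
    · rintro ⟨h, hu⟩
      exact ⟨⟨u, h⟩, hu, rfl⟩
  have hopen : IsOpen (P' : Set U) := by
    have h1 : IsOpen {a : ↥P | ((φ a : ↥Q) : W) ∈ Q'} :=
      hQ'.preimage (continuous_subtype_val.comp φ.continuous_toFun)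
    have h2 : IsOpen (Subtype.val '' {a : ↥P | ((φ a : ↥Q) : W) ∈ Q'}) :=
      hP.isOpenMap_subtype_val _ h1
    have h3 : (P' : Set U) = Subtype.val '' {a : ↥P | ((φ a : ↥Q) : W) ∈ Q'} := by
      ext u
      rw [SetLike.mem_coe, hmem]
      constructor
      · rintro ⟨h, hu⟩
        exact ⟨⟨u, h⟩, hu, rfl⟩
      · rintro ⟨a, ha, rfl⟩
        exact ⟨a.2, ha⟩
    rw [h3]
    exact h2
  have hP' : ∀ u : ↥P', (u : U) ∈ P := fun u => ((hmem u).1 u.2).1
  have hf : ∀ u : ↥P', ((φ ⟨u, hP' u⟩ : ↥Q) : W) ∈ Q' := fun u => ((hmem u).1 u.2).2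
  have hg : ∀ w : ↥Q', ((φ.symm ⟨w, hle w.2⟩ : ↥P) : U) ∈ P' := by
    intro w
    rw [hmem]
    refine ⟨(φ.symm ⟨w, hle w.2⟩).2, ?_⟩
    have : (⟨((φ.symm ⟨w, hle w.2⟩ : ↥P) : U), (φ.symm ⟨w, hle w.2⟩).2⟩ : ↥P) =
      φ.symm ⟨w, hle w.2⟩ := rfl
    rw [this, φ.apply_symm_apply]
    exact w.2
  refine ⟨P', hopen, ⟨?_⟩⟩
  exact
    { toFun := fun u => ⟨((φ ⟨u, hP' u⟩ : ↥Q) : W), hf u⟩
      invFun := fun w => ⟨((φ.symm ⟨w, hle w.2⟩ : ↥P) : U), hg w⟩
      left_inv := fun u => by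
        apply Subtype.ext
        change ((φ.symm ⟨((φ ⟨u, hP' u⟩ : ↥Q) : W), _⟩ : ↥P) : U) = u
        have : (⟨((φ ⟨u, hP' u⟩ : ↥Q) : W), hle (hf u)⟩ : ↥Q) = φ ⟨u, hP' u⟩ := rfl
        rw [this, φ.symm_apply_apply]
      right_inv := fun w => by
        apply Subtype.ext
        change ((φ ⟨((φ.symm ⟨w, hle w.2⟩ : ↥P) : U), _⟩ : ↥Q) : W) = w
        have : (⟨((φ.symm ⟨w, hle w.2⟩ : ↥P) : U), (φ.symm ⟨w, hle w.2⟩).2⟩ : ↥P) =
          φ.symm ⟨w, hle w.2⟩ := rfl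
        rw [this, φ.apply_symm_apply]
      map_mul' := fun a b => by
        apply Subtype.ext
        change ((φ (⟨a, hP' a⟩ * ⟨b, hP' b⟩) : ↥Q) : W) = _
        rw [map_mul]
        rfl
      continuous_toFun := by
        apply Continuous.subtype_mk
        apply continuous_subtype_val.comp
        apply φ.continuous_toFun.comp
        exact Continuous.subtype_mk continuous_subtype_val _
      continuous_invFun := by
        apply Continuous.subtype_mk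
        apply continuous_subtype_val.comp
        apply φ.symm.continuous_toFun.comp
        exact Continuous.subtype_mk continuous_subtype_val _ }

theorem Commensurable.trans {U W X : Type} [Group U] [TopologicalSpace U] [Group W]
    [TopologicalSpace W] [Group X] [TopologicalSpace X] (h : Commensurable U W)
    (h' : Commensurable W X) : Commensurable U X := by
  obtain ⟨P, Q, hP, hQ, ⟨φ⟩⟩ := h
  obtain ⟨P2, Q2, hP2, hQ2, ⟨ψ⟩⟩ := h'
  have hE : IsOpen ((Q ⊓ P2 : Subgroup W) : Set W) := by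
    rw [Subgroup.coe_inf]
    exact hQ.inter hP2
  obtain ⟨P', hP', ⟨φ'⟩⟩ := restrict_aux hP φ hE inf_le_left
  obtain ⟨Q', hQ', ⟨ψ'⟩⟩ := restrict_aux hQ2 ψ.symm hE inf_le_right
  exact ⟨P', Q', hP', hQ', ⟨φ'.trans ψ'.symm⟩⟩

end Pool.Agent.Helper59_Branch
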