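import Mathlib

set_option autoImplicit false

namespace Pool.Agent.Helper59_Branch

/-- A rooted tree, given by its set of vertices, its root and its parent function (the root is
its own parent); every vertex reaches the root by taking parents finitely often. -/
structure RTree where
  /-- the vertices -/
  V : Type
  /-- the root -/
  root : V
  /-- the parent of a vertex -/
  parent : V → V
  parent_root : parent root = root
  reach : ∀ v, ∃ k : ℕ, parent^[k] v = root

/-- The level of a vertex (its distance to the root). -/
noncomputable def RTree.level (T : RTree) (v : T.V) : ℕ := sInf {k | T.parent^[k] v = T.root}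

/-- The children of a vertex. -/
def RTree.children (T : RTree) (v : T.V) : Set T.V := {w | T.parent w = v ∧ w ≠ T.root}

/-- `T.Below v w`: the vertex `w` lies in the subtree rooted at `v`. -/
def RTree.Below (T : RTree) (v w : T.V) : Prop := ∃ k : ℕ, T.parent^[k] w = v

/-- `T` is locally finite and spherically homogeneous, and every vertex has at least two
children. -/
structure RTree.IsHomogeneous (T : RTree) : Prop where
  finite : ∀ v, (T.children v).Finite
  two_le : ∀ v, 2 ≤ (T.children v).ncard
  homogeneous : ∀ v w, T.level v = T.level w → (T.children v).ncard = (T.children w).ncard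

theorem RTree.aut_inv_mem (T : RTree) (g : Equiv.Perm T.V)
    (h : ∀ v, g (T.parent v) = T.parent (g v)) (v : T.V) :
    g⁻¹ (T.parent v) = T.parent (g⁻¹ v) := by
  rw [Equiv.Perm.inv_eq_iff_eq, h]
  simp

/-- The automorphism group of the rooted tree `T`. -/
def RTree.aut (T : RTree) : Subgroup (Equiv.Perm T.V) where
  carrier := {g | ∀ v, g (T.parent v) = T.parent (g v)}
  mul_mem' := fun {a b} ha hb v => by
    change a (b (T.parent v)) = T.parent (a (b v))
    rw [hb, ha]
  one_mem' := fun _ => rfl
  inv_mem' := fun {g} h v => T.aut_inv_mem g h v

/-- The type of automorphisms of the rooted tree `T`. -/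
def RTree.Aut (T : RTree) : Type := ↥T.aut

/-- The automorphisms of `T` form a group under composition. -/
instance RTree.autGroup (T : RTree) : Group T.Aut := Subgroup.toGroup T.aut

/-- The image of a vertex under an automorphism. -/
def RTree.app (T : RTree) (g : T.Aut) (v : T.V) : T.V := g.1 v

/-- The topology of pointwise convergence on the automorphism group (for a locally finite tree,
it is the profinite topology): the coarsest topology for which all maps `g ↦ g v` to the
discrete set of vertices are continuous. -/
instance RTree.autTopology (T : RTree) : TopologicalSpace T.Aut :=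
  ⨅ v : T.V, TopologicalSpace.induced (fun g : T.Aut => T.app g v) ⊥

/-- The rigid stabilizer of `v` in `U` (as a set): the elements of `U` that fix every vertex
outside the subtree rooted at `v`. -/
def RTree.rist (T : RTree) (U : Subgroup T.Aut) (v : T.V) : Set T.Aut :=
  {g | g ∈ U ∧ ∀ w, ¬ T.Below v w → T.app g w = w}

/-- The rigid stabilizer of level `n` in `U`: the subgroup generated by the rigid stabilizers of
the vertices of level `n`. -/
def RTree.ristLevel (T : RTree) (U : Subgroup T.Aut) (n : ℕ) : Subgroup T.Aut :=
  Subgroup.closure {g | ∃ v, T.level v = n ∧ g ∈ T.rist U v}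

/-- `U` is a profinite branch group acting on `T`: it is closed, it is transitive on every level
and its rigid level stabilizers have finite index. -/
structure RTree.IsBranch (T : RTree) (U : Subgroup T.Aut) : Prop where
  closed : IsClosed (U : Set T.Aut)
  transitive : ∀ v w, T.level v = T.level w → ∃ g ∈ U, T.app g v = w
  finite_index : ∀ n : ℕ, 1 ≤ n → (T.ristLevel U n).relIndex U ≠ 0

/-- A totally disconnected, locally compact Hausdorff topological group. -/
structure IsTDLC (G : Type) [Group G] [TopologicalSpace G] : Prop where
  group : IsTopologicalGroup G
  t2 : T2Space G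
  locallyCompact : LocallyCompactSpace G
  totallyDisconnected : TotallyDisconnectedSpace G

/-- Some compact subset generates the group. -/
def IsCompactlyGenerated (G : Type) [Group G] [TopologicalSpace G] : Prop :=
  ∃ S : Set G, IsCompact S ∧ Subgroup.closure S = ⊤

/-- Some compact open subgroup has trivial normal core. -/
def IsExpansive (G : Type) [Group G] [TopologicalSpace G] : Prop :=
  ∃ W : Subgroup G, IsCompact (W : Set G) ∧ IsOpen (W : Set G) ∧
    ∀ x : G, (∀ g : G, g⁻¹ * x * g ∈ W) → x = 1

/-- `U` is isomorphic to an open subgroup of some compactly generated expansive t.d.l.c.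
group. -/
def ExpansivelyEmbeddable (U : Type) [Group U] [TopologicalSpace U] : Prop :=
  ∃ (G : Type) (_ : Group G) (_ : TopologicalSpace G),
    IsTDLC G ∧ IsCompactlyGenerated G ∧ IsExpansive G ∧
      ∃ W : Subgroup G, IsOpen (W : Set G) ∧ Nonempty (U ≃ₜ* ↥W)

/-- Some open subgroup of one group is isomorphic, as a topological group, to some open subgroup
of the other. -/
def Commensurable (U W : Type) [Group U] [TopologicalSpace U] [Group W] [TopologicalSpace W] :
    Prop :=
  ∃ (A : Subgroup U) (B : Subgroup W), IsOpen (A : Set U) ∧ IsOpen (B : Set W) ∧
    Nonempty (↥A ≃ₜ* ↥B)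

/-- The subgroup `U` of the automorphism group of `T` is expansively embeddable. -/
def RTree.IsEmbeddable (T : RTree) (U : Subgroup T.Aut) : Prop := ExpansivelyEmbeddable ↥U

/-- An expansively embeddable profinite branch group: a tree `T` as in the definition of branch
groups, and a profinite branch group `U` acting on `T` that is expansively embeddable. -/
structure EEBranchGroup where
  /-- the tree -/
  T : RTree
  homogeneous : T.IsHomogeneous
  /-- the group -/
  U : Subgroup T.Aut
  branch : T.IsBranch U
  embeddable : T.IsEmbeddable U

/-- Commensurability of two groups of tree automorphisms. -/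
def RTree.Comm (T T' : RTree) (U : Subgroup T.Aut) (U' : Subgroup T'.Aut) : Prop :=
  Commensurable ↥U ↥U'

/-- Commensurability of (expansively embeddable) profinite branch groups. -/
def EEBranchGroup.Comm (G G' : EEBranchGroup) : Prop := G.T.Comm G'.T G.U G'.U

end Pool.Agent.Helper59_Branch
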