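import Pool.Agent.Helper59_Branch.Bdry

set_option autoImplicit false

open Topology Pointwise

namespace Pool.Agent.Helper59_Branch

/-! ### The ambient group -/

/-- the group generated by `K y` and the exchange, acting on the boundary -/
def Gp (y : ℕ → ZMod 2) : Subgroup (Equiv.Perm X) :=
  Subgroup.closure (insert hX (bd '' (K y : Set A)))

theorem hX_mem (y : ℕ → ZMod 2) : hX ∈ Gp y :=
  Subgroup.subset_closure (Set.mem_insert _ _)

theorem bd_mem {y : ℕ → ZMod 2} {g : A} (hg : g ∈ K y) : bd g ∈ Gp y :=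
  Subgroup.subset_closure (Set.mem_insert_of_mem _ ⟨g, hg, rfl⟩)

/-- the image of `K y` in the ambient group -/
def emb (y : ℕ → ZMod 2) : ↥(K y) →* ↥(Gp y) where
  toFun := fun g => ⟨bd g, bd_mem g.2⟩
  map_one' := Subtype.ext (by
    change bd (1 : A) = 1
    rw [map_one])
  map_mul' := fun a b => Subtype.ext (by
    change bd ((a : A) * b) = bd a * bd b
    rw [map_mul])

theorem emb_injective (y : ℕ → ZMod 2) : Function.Injective (emb y) := by
  intro a b h
  apply Subtype.ext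
  apply bd_injective
  exact congrArg Subtype.val h

/-- the image of `Kf y m` in the ambient group -/
def Kg (y : ℕ → ZMod 2) (m : ℕ) : Subgroup ↥(Gp y) := ((Kf y m).map bd).subgroupOf (Gp y)

theorem mem_Kg {y : ℕ → ZMod 2} {m : ℕ} {g : ↥(Gp y)} :
    g ∈ Kg y m ↔ ∃ k ∈ Kf y m, bd k = (g : Equiv.Perm X) := by
  unfold Kg
  rw [Subgroup.mem_subgroupOf, Subgroup.mem_map]

theorem Kg_mono (y : ℕ → ZMod 2) {m n : ℕ} (h : m ≤ n) : Kg y n ≤ Kg y m := by
  intro g hg
  obtain ⟨k, hk, hkg⟩ := mem_Kg.1 hg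
  exact mem_Kg.2 ⟨k, Kf_mono y h hk, hkg⟩

theorem conj_exists {y : ℕ → ZMod 2} (hy : y 0 = 1) {g : Equiv.Perm X} (hg : g ∈ Gp y) :
    (∀ m, ∃ m', ∀ k ∈ Kf y m', ∃ k' ∈ Kf y m, g * bd k * g⁻¹ = bd k') ∧
      (∀ m, ∃ m', ∀ k ∈ Kf y m', ∃ k' ∈ Kf y m, g⁻¹ * bd k * g = bd k') := by
  have hh : ∀ m, ∃ m', ∀ k ∈ Kf y m', ∃ k' ∈ Kf y m, hX * bd k * hX = bd k' :=
    fun m => ⟨m + 2, fun k hk => conj_h_mem hy hk⟩
  induction hg using Subgroup.closure_induction with
  | mem x hx =>
    rcases hx with rfl | ⟨a, ha, rfl⟩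
    · exact ⟨hh, hh⟩
    · constructor
      · intro m
        refine ⟨m, fun k hk => ⟨a * k * a⁻¹, Kf_conj ha hk, ?_⟩⟩
        rw [map_mul, map_mul, map_inv]
      · intro m
        refine ⟨m, fun k hk => ⟨a⁻¹ * k * a⁻¹⁻¹, Kf_conj ((K y).inv_mem ha) hk, ?_⟩⟩
        rw [map_mul, map_mul, inv_inv, map_inv]
  | one => exact ⟨fun m => ⟨m, fun k hk => ⟨k, hk, by simp⟩⟩,
      fun m => ⟨m, fun k hk => ⟨k, hk, by simp⟩⟩⟩
  | mul a b _ _ ha hb =>
    constructor
    · intro m
      obtain ⟨m1, h1⟩ := ha.1 m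
      obtain ⟨m2, h2⟩ := hb.1 m1
      refine ⟨m2, fun k hk => ?_⟩
      obtain ⟨k1, hk1, e1⟩ := h2 k hk
      obtain ⟨k2, hk2, e2⟩ := h1 k1 hk1
      refine ⟨k2, hk2, ?_⟩
      rw [← e2, ← e1]
      group
    · intro m
      obtain ⟨m1, h1⟩ := hb.2 m
      obtain ⟨m2, h2⟩ := ha.2 m1
      refine ⟨m2, fun k hk => ?_⟩
      obtain ⟨k1, hk1, e1⟩ := h2 k hk
      obtain ⟨k2, hk2, e2⟩ := h1 k1 hk1
      refine ⟨k2, hk2, ?_⟩
      rw [← e2, ← e1]
      group
  | inv a _ ha =>
    constructor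
    · intro m
      obtain ⟨m1, h1⟩ := ha.2 m
      exact ⟨m1, fun k hk => by
        obtain ⟨k', hk', e⟩ := h1 k hk
        exact ⟨k', hk', by rw [inv_inv]; exact e⟩⟩
    · intro m
      obtain ⟨m1, h1⟩ := ha.1 m
      exact ⟨m1, fun k hk => by
        obtain ⟨k', hk', e⟩ := h1 k hk
        exact ⟨k', hk', by rw [inv_inv]; exact e⟩⟩

/-- the filter basis of the neighbourhoods of the identity -/
@[reducible]
def fb {y : ℕ → ZMod 2} (hy : y 0 = 1) : GroupFilterBasis ↥(Gp y) where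
  sets := Set.range (fun m => (Kg y m : Set ↥(Gp y)))
  nonempty := ⟨_, 0, rfl⟩
  inter_sets := by
    rintro _ _ ⟨m, rfl⟩ ⟨n, rfl⟩
    exact ⟨_, ⟨max m n, rfl⟩, fun g hg => ⟨Kg_mono y (le_max_left _ _) hg,
      Kg_mono y (le_max_right _ _) hg⟩⟩
  one' := by
    rintro _ ⟨m, rfl⟩
    exact (Kg y m).one_mem
  mul' := by
    rintro _ ⟨m, rfl⟩
    refine ⟨_, ⟨m, rfl⟩, ?_⟩
    rintro _ ⟨a, ha, b, hb, rfl⟩
    exact (Kg y m).mul_mem ha hb
  inv' := by
    rintro _ ⟨m, rfl⟩
    exact ⟨_, ⟨m, rfl⟩, fun g hg => (Kg y m).inv_mem hg⟩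
  conj' := by
    rintro g _ ⟨m, rfl⟩
    obtain ⟨m', hm'⟩ := (conj_exists hy g.2).1 m
    refine ⟨_, ⟨m', rfl⟩, fun x hx => ?_⟩
    obtain ⟨k, hk, hkx⟩ := mem_Kg.1 hx
    obtain ⟨k', hk', e⟩ := hm' k hk
    refine mem_Kg.2 ⟨k', hk', ?_⟩
    rw [← e, hkx]
    rfl

/-- the topology of the ambient group -/
@[reducible]
def topG {y : ℕ → ZMod 2} (hy : y 0 = 1) : TopologicalSpace ↥(Gp y) := (fb hy).topology

section

variable {y : ℕ → ZMod 2} (hy : y 0 = 1)

include hy

theorem topG_group : @IsTopologicalGroup ↥(Gp y) (topG hy) _ := (fb hy).isTopologicalGroup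

theorem Kg_nhds (m : ℕ) : (Kg y m : Set ↥(Gp y)) ∈ @nhds _ (topG hy) 1 :=
  (fb hy).mem_nhds_one ⟨m, rfl⟩

theorem Kg_open (m : ℕ) : @IsOpen _ (topG hy) (Kg y m : Set ↥(Gp y)) := by
  let := topG hy
  have := topG_group hy
  exact Subgroup.isOpen_of_mem_nhds _ (Kg_nhds hy m)

omit hy in
theorem Kg_sep {g : ↥(Gp y)} (hg : g ≠ 1) : ∃ m, g ∉ Kg y m := by
  by_contra hcon
  push Not at hcon
  apply hg
  obtain ⟨k, hk, hkg⟩ := mem_Kg.1 (hcon 0)
  have h1 : k = 1 := by
    apply A_ext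
    intro v
    obtain ⟨k', hk', hkg'⟩ := mem_Kg.1 (hcon v.length)
    have : k = k' := bd_injective (by rw [hkg, hkg'])
    rw [this]
    exact (hk'.2 v le_rfl).1
  apply Subtype.ext
  rw [← hkg, h1, map_one]
  rfl

theorem topG_t2 : @T2Space ↥(Gp y) (topG hy) := by
  let := topG hy
  rw [(fb hy).t2Space_iff_sInter_subset rfl]
  intro g hg
  by_contra hne
  obtain ⟨m, hm⟩ := Kg_sep hne
  exact hm (hg _ ⟨m, rfl⟩)

theorem continuous_emb : @Continuous _ _ _ (topG hy) (emb y) := by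
  let := topG hy
  have := topG_group hy
  apply continuous_of_continuousAt_one
  rw [ContinuousAt, map_one]
  rw [(fb hy).nhds_one_hasBasis.tendsto_right_iff]
  rintro _ ⟨m, rfl⟩
  have h1 : {g : ↥(K y) | (g : A) ∈ Kf y m} ∈ 𝓝 (1 : ↥(K y)) :=
    (isOpen_Kf y m).mem_nhds (Kf y m).one_mem
  filter_upwards [h1] with g hg
  exact mem_Kg.2 ⟨g, hg, rfl⟩

theorem isCompact_range_emb : @IsCompact _ (topG hy) (Set.range (emb y)) := by
  let := topG hy
  exact isCompact_range (continuous_emb hy)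

theorem isOpen_range_emb : @IsOpen _ (topG hy) ((emb y).range : Set ↥(Gp y)) := by
  let := topG hy
  have := topG_group hy
  apply Subgroup.isOpen_of_mem_nhds (g := 1)
  apply Filter.mem_of_superset (Kg_nhds hy 0)
  intro g hg
  obtain ⟨k, hk, hkg⟩ := mem_Kg.1 hg
  exact ⟨⟨k, hk.1⟩, Subtype.ext hkg⟩

theorem topG_locallyCompact : @LocallyCompactSpace ↥(Gp y) (topG hy) := by
  let := topG hy
  have := topG_group hy
  apply IsCompact.locallyCompactSpace_of_mem_nhds_of_group (isCompact_range_emb hy) (x := 1)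
  exact (isOpen_range_emb hy).mem_nhds (emb y).range.one_mem

theorem sep_aux : let := topG hy
    Pairwise (∃ U : Set ↥(Gp y), IsClopen U ∧ · ∈ U ∧ · ∈ Uᶜ) := by
  intro _ a b hab
  have := topG_group hy
  have h1 : a⁻¹ * b ≠ 1 := by
    intro h
    exact hab (inv_mul_eq_one.1 h)
  obtain ⟨m, hm⟩ := Kg_sep h1
  have hopen := Kg_open hy m
  have hclopen : IsClopen ((Kg y m : Set ↥(Gp y))) :=
    ⟨Subgroup.isClosed_of_isOpen _ hopen, hopen⟩
  refine ⟨(fun x => a⁻¹ * x) ⁻¹' (Kg y m : Set ↥(Gp y)),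
    hclopen.preimage (continuous_const.mul continuous_id), ?_, hm⟩
  change a⁻¹ * a ∈ Kg y m
  rw [inv_mul_cancel]
  exact (Kg y m).one_mem

theorem topG_totallyDisconnected : @TotallyDisconnectedSpace ↥(Gp y) (topG hy) := by
  let := topG hy
  have := topG_group hy
  have hsep : TotallySeparatedSpace ↥(Gp y) := by
    rw [totallySeparatedSpace_iff_exists_isClopen]
    exact sep_aux hy
  infer_instance

theorem topG_compactlyGenerated :
    @IsCompactlyGenerated ↥(Gp y) _ (topG hy) := by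
  let := topG hy
  refine ⟨insert ⟨hX, hX_mem y⟩ (Set.range (emb y)), (isCompact_range_emb hy).insert _, ?_⟩
  rw [eq_top_iff]
  intro g _
  have h1 : ∀ x (hx : x ∈ Gp y), (⟨x, hx⟩ : ↥(Gp y)) ∈
      Subgroup.closure (insert (⟨hX, hX_mem y⟩ : ↥(Gp y)) (Set.range (emb y))) := by
    intro x hx
    induction hx using Subgroup.closure_induction with
    | mem x hx =>
      apply Subgroup.subset_closure
      rcases hx with rfl | ⟨a, ha, rfl⟩
      · exact Set.mem_insert _ _
      · exact Set.mem_insert_of_mem _ ⟨⟨a, ha⟩, rfl⟩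
    | one => exact Subgroup.one_mem _
    | mul a b ha' hb' ha hb => exact Subgroup.mul_mem _ ha hb
    | inv a ha' ha => exact Subgroup.inv_mem _ ha
  exact h1 g.1 g.2

omit hy in
/-- an element all of whose conjugates lie in `K y` is trivial -/
theorem core_trivial (x : ↥(Gp y)) (hx : ∀ g : ↥(Gp y), g⁻¹ * x * g ∈ (emb y).range) :
    x = 1 := by
  -- the core, as a set of automorphisms
  let N : Set A := {k | k ∈ K y ∧ ∀ g ∈ Gp y, ∃ k' ∈ K y, g⁻¹ * bd k * g = bd k'}
  have hxN : ∃ k ∈ N, bd k = (x : Equiv.Perm X) := by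
    have h1 := hx 1
    rw [inv_one, one_mul, mul_one] at h1
    obtain ⟨k, hk⟩ := h1
    have hk' : bd (k : A) = (x : Equiv.Perm X) := congrArg Subtype.val hk
    refine ⟨k, ⟨k.2, fun g hg => ?_⟩, hk'⟩
    obtain ⟨k2, hk2⟩ := hx ⟨g, hg⟩
    refine ⟨k2, k2.2, ?_⟩
    rw [hk']
    exact (congrArg Subtype.val hk2).symm
  have hNconj : ∀ k ∈ N, ∀ g ∈ Gp y, ∃ k' ∈ N, g⁻¹ * bd k * g = bd k' := by
    intro k hk g hg
    obtain ⟨k', hk', e⟩ := hk.2 g hg
    refine ⟨k', ⟨hk', fun g2 hg2 => ?_⟩, e⟩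
    obtain ⟨k2, hk2, e2⟩ := hk.2 (g * g2) ((Gp y).mul_mem hg hg2)
    refine ⟨k2, hk2, ?_⟩
    rw [← e2, ← e]
    group
  have hNinv : ∀ k ∈ N, k⁻¹ ∈ N := by
    intro k hk
    refine ⟨(K y).inv_mem hk.1, fun g hg => ?_⟩
    obtain ⟨k', hk', e⟩ := hk.2 g hg
    refine ⟨k'⁻¹, (K y).inv_mem hk', ?_⟩
    rw [map_inv, map_inv, ← e]
    group
  have hNh : ∀ k ∈ N, ∃ k' ∈ N, hX * bd k * hX = bd k' := fun k hk => hNconj k hk hX (hX_mem y)
  have hNK : ∀ k ∈ N, ∀ a ∈ K y, a * k * a⁻¹ ∈ N := by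
    intro k hk a ha
    obtain ⟨k', hk', e⟩ := hNconj k hk (bd a⁻¹) (bd_mem ((K y).inv_mem ha))
    have : a * k * a⁻¹ = k' := by
      apply bd_injective
      rw [← e, map_mul, map_mul, map_inv]
      group
    rw [this]
    exact hk'
  -- no element of the core maps the vertex `0` to the vertex `2`
  have h02 : ∀ k ∈ N, ap k [0] ≠ [2] := by
    intro k hk h
    obtain ⟨k', hk', e⟩ := hNh k hk
    -- two points of the cone `0` that differ at the second letter
    set s : X := cons 0 (cons 0 (fun _ => 0)) with hs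
    set s' : X := cons 0 (cons 1 (fun _ => 0)) with hs'
    have hks : ∀ t : X, (bd k (cons 0 t)) 0 = 2 := by
      intro t
      have h1 := pre_bd k (cons 0 t) 1
      have h2 : pre (cons 0 t) 1 = [0] := rfl
      rw [h2, h] at h1
      simp only [pre, List.cons.injEq, and_true] at h1
      exact h1
    have hfix : ∀ t : X, hf (bd k (cons 0 t)) = bd k (cons 0 t) := by
      intro t
      apply hf_other
      · rw [hks]; decide
      · rw [hks]
        rintro ⟨h1, _⟩
        revert h1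
        decide
    have e1 : ∀ t : X, bd k' (cons 1 (cons 1 t)) = bd k (cons 0 t) := by
      intro t
      rw [← e]
      change hf (bd k (hf (cons 1 (cons 1 t)))) = bd k (cons 0 t)
      rw [hf_oneone, hfix]
    have e2 : pre (bd k s) 2 = pre (bd k s') 2 := by
      rw [hs, hs', ← e1, ← e1, pre_bd, pre_bd]
      rfl
    rw [pre_bd, pre_bd] at e2
    have e3 := ap_inj k e2
    have e4 : pre s 2 = [0, 0] := rfl
    have e5 : pre s' 2 = [1, 0] := rfl
    rw [e4, e5] at e3
    revert e3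
    decide
  -- the core fixes level 1
  have hbase : ∀ k ∈ N, ∀ v : V, v.length = 1 → ap k v = v := by
    intro k hk v hv
    have hpar : sg (lab k []) = 0 := by
      obtain ⟨c, hc⟩ := hk.1
      have := hc.par_eq []
      rw [conv_nil, hc.nil, mul_zero] at this
      exact this
    have h1 : lab k [] 0 ≠ 2 := by
      intro h
      apply h02 k hk
      rw [ap_cons, h, ap_nil]
    have h2 : lab k [] 2 ≠ 0 := by
      intro h
      apply h02 k⁻¹ (hNinv k hk)
      rw [ap_inv_eq_iff, ap_cons, h, ap_nil]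
    have h3 : ∀ σ : Equiv.Perm (Fin 3), sg σ = 0 → σ 0 ≠ 2 → σ 2 ≠ 0 → σ = 1 := by decide
    have h4 := h3 _ hpar h1 h2
    obtain ⟨i, rfl⟩ := List.length_eq_one_iff.1 hv
    rw [ap_cons, h4, ap_nil]
    rfl
  -- induction on the level
  have hall : ∀ L, ∀ k ∈ N, ∀ v : V, v.length = L + 1 → ap k v = v := by
    intro L
    induction L with
    | zero => exact hbase
    | succ L ih =>
      -- vertices below `11`
      have h1 : ∀ k ∈ N, ∀ u : V, u.length = L → ap k (u ++ [1, 1]) = u ++ [1, 1] := by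
        intro k hk u hu
        obtain ⟨k', hk', e⟩ := hNh k hk
        -- `bd k = hX * bd k' * hX`
        have e' : bd k = hX * bd k' * hX := by
          rw [← e]
          have := hX_mul_self
          calc bd k = (hX * hX) * bd k * (hX * hX) := by rw [this]; simp
            _ = _ := by group
        obtain ⟨t, ht⟩ := exists_pre u
        rw [hu] at ht
        have e1 : pre (cons 1 (cons 1 t)) (L + 2) = u ++ [1, 1] := by rw [pre_cons_cons, ht]
        have e2 : pre (cons 0 t) (L + 1) = u ++ [0] := by rw [pre_cons, ht]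
        have e3 : pre (bd k' (cons 0 t)) (L + 1) = u ++ [0] := by
          rw [pre_bd, e2]
          exact ih k' hk' _ (by simp [hu])
        have e4 : ap k' [0] = [0] := hbase k' hk' _ rfl
        set r := bd k' (cons 0 t) with hr
        have e5 : r 0 = 0 := by
          have h5 := pre_bd k' (cons 0 t) 1
          have h6 : pre (cons 0 t) 1 = [0] := rfl
          rw [h6, e4] at h5
          simp only [pre, List.cons.injEq, and_true] at h5
          exact h5
        have e6 : r = cons 0 (sh r) := by rw [← e5, cons_sh]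
        have e7 : pre (sh r) L = u := by
          rw [e6, pre_cons] at e3
          have h7 : pre (sh r) L ++ [0] = u ++ [0] := e3
          exact List.append_cancel_right h7
        rw [← e1, ← pre_bd, e']
        change pre (hf (bd k' (hf (cons 1 (cons 1 t))))) (L + 2) = _
        rw [hf_oneone, ← hr, e6, hf_zero, pre_cons_cons, e7, e1]
      intro k hk v hv
      obtain ⟨a, ha, hav⟩ := H_trans' (u := []) (List.nil_suffix) (List.nil_suffix)
        (v := v) (w := List.replicate L 0 ++ [1, 1]) (by simp [hv])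
      have haK : a ∈ K y := (H_le_R y [] ha).1
      have h2 := h1 (a * k * a⁻¹) (hNK k hk a haK) (List.replicate L 0) (by simp)
      rw [← hav, ap_mul, ap_mul, ap_inv_ap] at h2
      exact ap_inj a h2
  obtain ⟨k, hk, hkx⟩ := hxN
  have hk1 : k = 1 := by
    apply A_ext
    intro v
    cases v with
    | nil => simp
    | cons i v => exact hall v.length k hk (i :: v) (by simp)
  apply Subtype.ext
  rw [← hkx, hk1, map_one]
  rfl

/-- `K y` is expansively embeddable -/
theorem K_embeddable : ExpansivelyEmbeddable ↥(K y) := by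
  let := topG hy
  have := topG_group hy
  have := topG_t2 hy
  refine ⟨↥(Gp y), inferInstance, topG hy, ⟨topG_group hy, topG_t2 hy, topG_locallyCompact hy,
    topG_totallyDisconnected hy⟩, topG_compactlyGenerated hy, ?_, ?_⟩
  · refine ⟨(emb y).range, ?_, isOpen_range_emb hy, core_trivial⟩
    rw [MonoidHom.coe_range]
    exact isCompact_range_emb hy
  · refine ⟨(emb y).range, isOpen_range_emb hy, ⟨?_⟩⟩
    have hc : Continuous (fun g : ↥(K y) => (⟨emb y g, ⟨g, rfl⟩⟩ : ↥(emb y).range)) :=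
      Continuous.subtype_mk (continuous_emb hy) _
    exact
      { toMulEquiv := MonoidHom.ofInjective (emb_injective y)
        continuous_toFun := hc
        continuous_invFun := by
          have h1 := (Continuous.homeoOfEquivCompactToT2
            (f := (MonoidHom.ofInjective (emb_injective y)).toEquiv) hc).symm.continuous
          exact h1 }

end

end Pool.Agent.Helper59_Branch
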