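import Pool.Agent.Helper59_Branch.Aut

set_option autoImplicit false

namespace Pool.Agent.Helper59_Branch

/-! ### Translation to a subtree and sections -/

/-- the automorphism acting as `g` on the subtree of `v` and trivially elsewhere -/
noncomputable def under (v : V) (g : A) : A :=
  ofP (fun x => if v <:+ x then lab g (x.take (x.length - v.length)) else 1)

theorem lab_under_append (v : V) (g : A) (t : V) : lab (under v g) (t ++ v) = lab g t := by
  unfold under
  rw [lab_ofP, if_pos (List.suffix_append t v)]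
  congr 1
  simp

theorem lab_under_of_not (v : V) (g : A) {x : V} (h : ¬ v <:+ x) : lab (under v g) x = 1 := by
  unfold under
  rw [lab_ofP, if_neg h]

theorem supp_under (v : V) (g : A) : Supp v (under v g) := by
  intro x hx
  apply fix_of_lab
  intro u hu _
  apply lab_under_of_not
  intro h
  exact hx (h.trans hu)

theorem ap_under_append (v : V) (g : A) (t : V) : ap (under v g) (t ++ v) = ap g t ++ v := by
  induction t with
  | nil => simpa using (supp_under v g).fix_self
  | cons i t ih =>
    rw [List.cons_append, ap_cons, lab_under_append, ih, ap_cons, List.cons_append]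

theorem par_under_append (v : V) (g : A) (t : V) : par (under v g) (t ++ v) = par g t := by
  unfold par
  rw [lab_under_append]

theorem par_under_of_not (v : V) (g : A) {x : V} (h : ¬ v <:+ x) : par (under v g) x = 0 := by
  unfold par
  rw [lab_under_of_not v g h, sg_one]

/-- the section of `g` at `w` -/
noncomputable def sec (w : V) (g : A) : A := ofP (fun t => lab g (t ++ w))

@[simp] theorem lab_sec (w : V) (g : A) (t : V) : lab (sec w g) t = lab g (t ++ w) := by
  unfold sec; rw [lab_ofP]

theorem ap_sec_append {w : V} {g : A} (h : ap g w = w) (t : V) :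
    ap (sec w g) t ++ w = ap g (t ++ w) := by
  induction t with
  | nil => simp [h]
  | cons i t ih =>
    rw [List.cons_append, ap_cons g, ← ih, ap_cons, lab_sec, List.cons_append]

theorem par_sec (w : V) (g : A) (t : V) : par (sec w g) t = par g (t ++ w) := by
  unfold par
  rw [lab_sec]

/-- on the subtree of a fixed vertex, `under v (sec v g)` acts as `g` -/
theorem ap_under_sec {v : V} {g : A} (h : ap g v = v) {x : V} (hx : v <:+ x) :
    ap (under v (sec v g)) x = ap g x := by
  obtain ⟨t, rfl⟩ := hx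
  rw [ap_under_append, ap_sec_append h]

/-! ### Convolution -/

/-- `conv c v y = ∑ₖ yₖ c(v.drop k)`, the sum over `k ≤ |v|` -/
def conv (c : V → ZMod 2) : V → (ℕ → ZMod 2) → ZMod 2
  | [], y => y 0 * c []
  | (i :: v), y => y 0 * c (i :: v) + conv c v (fun n => y (n + 1))

theorem conv_nil (c : V → ZMod 2) (y : ℕ → ZMod 2) : conv c [] y = y 0 * c [] := rfl
theorem conv_cons (c : V → ZMod 2) (i : Fin 3) (v : V) (y : ℕ → ZMod 2) :
    conv c (i :: v) y = y 0 * c (i :: v) + conv c v (fun n => y (n + 1)) := rfl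

theorem conv_add (c d : V → ZMod 2) (v : V) (y : ℕ → ZMod 2) :
    conv (fun x => c x + d x) v y = conv c v y + conv d v y := by
  induction v generalizing y with
  | nil => simp only [conv_nil]; ring
  | cons i v ih => simp only [conv_cons, ih]; ring

theorem conv_comp (c : V → ZMod 2) (g : A) (v : V) (y : ℕ → ZMod 2) :
    conv (fun x => c (ap g x)) v y = conv c (ap g v) y := by
  induction v generalizing y with
  | nil => simp only [conv_nil, ap_nil]
  | cons i v ih => rw [ap_cons, conv_cons, conv_cons, ih, ap_cons]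

theorem conv_zero (v : V) (y : ℕ → ZMod 2) : conv (fun _ => 0) v y = 0 := by
  induction v generalizing y with
  | nil => simp [conv_nil]
  | cons i v ih => rw [conv_cons, ih]; simp

theorem conv_congr {c d : V → ZMod 2} {v : V} (h : ∀ u, u <:+ v → c u = d u)
    (y : ℕ → ZMod 2) : conv c v y = conv d v y := by
  induction v generalizing y with
  | nil => simp only [conv_nil]; rw [h [] (List.suffix_refl _)]
  | cons i v ih =>
    rw [conv_cons, conv_cons, h _ (List.suffix_refl _),
      ih (fun u hu => h u (hu.trans (List.suffix_cons i v)))]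

theorem conv_eq_zero {c : V → ZMod 2} {v : V} (h : ∀ u, u <:+ v → c u = 0)
    (y : ℕ → ZMod 2) : conv c v y = 0 := by
  rw [conv_congr (d := fun _ => 0) h, conv_zero]

/-- triangularity -/
theorem eq_zero_of_conv {c : V → ZMod 2} {y : ℕ → ZMod 2} (hy : y 0 = 1) {v : V}
    (h : ∀ u, u <:+ v → conv c u y = 0) : ∀ u, u <:+ v → c u = 0 := by
  induction v with
  | nil =>
    intro u hu
    have h1 := h [] (List.suffix_refl _)
    rw [conv_nil, hy, one_mul] at h1
    rw [List.suffix_nil.1 hu, h1]
  | cons i v ih =>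
    have h2 := ih (fun u hu => h u (hu.trans (List.suffix_cons i v)))
    intro u hu
    rcases List.suffix_cons_iff.1 hu with h3 | h3
    · have h4 := h _ (List.suffix_refl _)
      rw [conv_cons, hy, one_mul, conv_eq_zero h2, add_zero] at h4
      rw [h3, h4]
    · exact h2 u h3

/-- the defining conditions of the group `K y`: the cocycle `c` of `g` -/
structure IsC (y : ℕ → ZMod 2) (g : A) (c : V → ZMod 2) : Prop where
  nil : c [] = 0
  sum : ∀ v, c (0 :: v) + c (1 :: v) + c (2 :: v) = 0
  par_eq : ∀ v, par g v = conv c v y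

theorem sum_perm (f : Fin 3 → ZMod 2) (σ : Equiv.Perm (Fin 3)) :
    f (σ 0) + f (σ 1) + f (σ 2) = f 0 + f 1 + f 2 := by
  have h1 := Equiv.sum_comp σ f
  simp only [Fin.sum_univ_three] at h1
  exact h1

theorem IsC.one (y : ℕ → ZMod 2) : IsC y 1 (fun _ => 0) where
  nil := rfl
  sum := fun _ => by simp
  par_eq := fun v => by rw [par_one, conv_zero]

theorem sum_comp_ap (g : A) (c : V → ZMod 2) (v : V) :
    c (ap g (0 :: v)) + c (ap g (1 :: v)) + c (ap g (2 :: v)) =
      c (0 :: ap g v) + c (1 :: ap g v) + c (2 :: ap g v) := by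
  rw [ap_cons, ap_cons, ap_cons]
  exact sum_perm (fun i => c (i :: ap g v)) (lab g v)

theorem IsC.mul {y : ℕ → ZMod 2} {g h : A} {c d : V → ZMod 2} (hg : IsC y g c)
    (hh : IsC y h d) : IsC y (g * h) (fun x => c (ap h x) + d x) where
  nil := by rw [ap_nil, hg.nil, hh.nil, add_zero]
  sum := fun v => by
    have h1 := sum_comp_ap h c v
    have h2 := hg.sum (ap h v)
    have h3 := hh.sum v
    linear_combination h1 + h2 + h3
  par_eq := fun v => by
    rw [par_mul, conv_add, conv_comp, hg.par_eq, hh.par_eq]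

theorem IsC.inv {y : ℕ → ZMod 2} {g : A} {c : V → ZMod 2} (hg : IsC y g c) :
    IsC y g⁻¹ (fun x => c (ap g⁻¹ x)) where
  nil := by rw [ap_nil, hg.nil]
  sum := fun v => by rw [sum_comp_ap, hg.sum]
  par_eq := fun v => by rw [par_inv, conv_comp, hg.par_eq]

/-- the group `K y` -/
def K (y : ℕ → ZMod 2) : Subgroup A where
  carrier := {g | ∃ c, IsC y g c}
  mul_mem' := fun {a b} ha hb => by
    obtain ⟨c, hc⟩ := ha
    obtain ⟨d, hd⟩ := hb
    exact ⟨_, hc.mul hd⟩
  one_mem' := ⟨_, IsC.one y⟩
  inv_mem' := fun {a} ha => by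
    obtain ⟨c, hc⟩ := ha
    exact ⟨_, hc.inv⟩

theorem mem_K {y : ℕ → ZMod 2} {g : A} : g ∈ K y ↔ ∃ c, IsC y g c := Iff.rfl

theorem mem_K_of_par {y : ℕ → ZMod 2} {g : A} (h : ∀ v, par g v = 0) : g ∈ K y :=
  ⟨fun _ => 0, rfl, fun _ => by simp, fun v => by rw [h, conv_zero]⟩

theorem rot_mem_K (y : ℕ → ZMod 2) (u : V) : rot u ∈ K y := mem_K_of_par (par_rot u)

/-- the rigid stabilizer of `v` in `K y` -/
def R (y : ℕ → ZMod 2) (v : V) : Subgroup A where
  carrier := {g | g ∈ K y ∧ Supp v g}
  mul_mem' := fun ha hb => ⟨(K y).mul_mem ha.1 hb.1, ha.2.mul hb.2⟩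
  one_mem' := ⟨(K y).one_mem, Supp.one v⟩
  inv_mem' := fun h => ⟨(K y).inv_mem h.1, h.2.inv⟩

theorem mem_R {y : ℕ → ZMod 2} {v : V} {g : A} : g ∈ R y v ↔ g ∈ K y ∧ Supp v g := Iff.rfl

theorem rot_mem_R (y : ℕ → ZMod 2) {u v : V} (h : v <:+ u) : rot u ∈ R y v :=
  ⟨rot_mem_K y u, (supp_rot u).mono h⟩

theorem R_mono (y : ℕ → ZMod 2) {v w : V} (h : v <:+ w) : R y w ≤ R y v :=
  fun _ hg => ⟨hg.1, hg.2.mono h⟩

theorem conj_mem_R {y : ℕ → ZMod 2} {g k : A} {v : V} (hg : g ∈ K y) (hk : k ∈ R y v) :
    g * k * g⁻¹ ∈ R y (ap g v) :=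
  ⟨(K y).mul_mem ((K y).mul_mem hg hk.1) ((K y).inv_mem hg), hk.2.conj g⟩

/-- the elements of `K y` fixing level `m`, with trivial parities up to level `m` -/
def Kf (y : ℕ → ZMod 2) (m : ℕ) : Subgroup A where
  carrier := {g | g ∈ K y ∧ ∀ v : V, v.length ≤ m → ap g v = v ∧ par g v = 0}
  mul_mem' := fun {a b} ha hb => ⟨(K y).mul_mem ha.1 hb.1, fun v hv => by
    rw [ap_mul, (hb.2 v hv).1, (ha.2 v hv).1, par_mul, (hb.2 v hv).1, (ha.2 v hv).2,
      (hb.2 v hv).2]
    simp⟩
  one_mem' := ⟨(K y).one_mem, fun v _ => by simp⟩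
  inv_mem' := fun {g} h => ⟨(K y).inv_mem h.1, fun v hv => by
    have h1 : ap g⁻¹ v = v := by rw [ap_inv_eq_iff, (h.2 v hv).1]
    rw [par_inv, h1, (h.2 v hv).2]
    simp⟩

theorem mem_Kf {y : ℕ → ZMod 2} {m : ℕ} {g : A} :
    g ∈ Kf y m ↔ g ∈ K y ∧ ∀ v : V, v.length ≤ m → ap g v = v ∧ par g v = 0 := Iff.rfl

theorem Kf_le (y : ℕ → ZMod 2) (m : ℕ) : Kf y m ≤ K y := fun _ h => h.1

theorem Kf_mono (y : ℕ → ZMod 2) {m n : ℕ} (h : m ≤ n) : Kf y n ≤ Kf y m :=
  fun _ hg => ⟨hg.1, fun v hv => hg.2 v (hv.trans h)⟩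

theorem Kf_conj {y : ℕ → ZMod 2} {m : ℕ} {g k : A} (hg : g ∈ K y) (hk : k ∈ Kf y m) :
    g * k * g⁻¹ ∈ Kf y m := by
  refine ⟨(K y).mul_mem ((K y).mul_mem hg hk.1) ((K y).inv_mem hg), fun v hv => ?_⟩
  have h1 := hk.2 (ap g⁻¹ v) (by rw [length_ap]; exact hv)
  constructor
  · rw [ap_mul, ap_mul, h1.1, ap_ap_inv]
  · rw [par_mul, par_mul, par_inv, h1.1, h1.2, add_zero]
    exact zmod2_add_self _

/-- the cocycle of an element of `Kf y m` vanishes up to level `m` -/
theorem IsC.eq_zero_of_Kf {y : ℕ → ZMod 2} (hy : y 0 = 1) {m : ℕ} {g : A} {c : V → ZMod 2}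
    (hc : IsC y g c) (hg : g ∈ Kf y m) {v : V} (hv : v.length ≤ m) : c v = 0 := by
  apply eq_zero_of_conv hy (v := v) _ v (List.suffix_refl _)
  intro u hu
  rw [← hc.par_eq]
  exact (hg.2 u (hu.length_le.trans hv)).2

/-- the cocycle of an element of `R y v` vanishes outside of the subtree of `v` -/
theorem IsC.eq_zero_of_supp {y : ℕ → ZMod 2} (hy : y 0 = 1) {v : V} {g : A} {c : V → ZMod 2}
    (hc : IsC y g c) (hg : Supp v g) {x : V} (hx : ¬ v <:+ x) : c x = 0 := by
  apply eq_zero_of_conv hy (v := x) _ x (List.suffix_refl _)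
  intro u hu
  rw [← hc.par_eq]
  apply par_eq_zero_of_fix
  intro i
  by_cases h : v <:+ i :: u
  · rcases List.suffix_cons_iff.1 h with h1 | h1
    · rw [← h1]; exact hg.fix_self
    · exact absurd (h1.trans hu) hx
  · exact hg _ h

theorem IsC.eq_zero_of_supp_self {y : ℕ → ZMod 2} (hy : y 0 = 1) {v : V} {g : A}
    {c : V → ZMod 2} (hc : IsC y g c) (hg : Supp v g) : c v = 0 := by
  cases v with
  | nil => exact hc.nil
  | cons i v =>
    have h1 := hc.sum v
    have h2 : ∀ j, j ≠ i → c (j :: v) = 0 := by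
      intro j hj
      apply hc.eq_zero_of_supp hy hg
      apply not_suffix_of_ne
      · simp
      · simp [Ne.symm hj]
    fin_cases i
    · simpa [h2 1 (by decide), h2 2 (by decide)] using h1
    · simpa [h2 0 (by decide), h2 2 (by decide)] using h1
    · simpa [h2 0 (by decide), h2 1 (by decide)] using h1

theorem R_le_Kf {y : ℕ → ZMod 2} (hy : y 0 = 1) {v : V} {m : ℕ} (h : m ≤ v.length) :
    R y v ≤ Kf y m := by
  intro g hg
  obtain ⟨⟨c, hc⟩, hs⟩ := hg
  refine ⟨⟨c, hc⟩, fun x hx => ⟨hs.fix_of_length_le (hx.trans h), ?_⟩⟩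
  rw [hc.par_eq]
  apply conv_eq_zero
  intro u hu
  by_cases hv : v <:+ u
  · have h1 : v = u := hv.eq_of_length
      (le_antisymm hv.length_le (hu.length_le.trans (hx.trans h)))
    rw [← h1]
    exact hc.eq_zero_of_supp_self hy hs
  · exact hc.eq_zero_of_supp hy hs hv

/-- sections: if the cocycle vanishes on all suffixes of `w`, the section at `w` is in `K y` -/
theorem sec_mem_K {y : ℕ → ZMod 2} {g : A} {c : V → ZMod 2} {w : V} (hc : IsC y g c)
    (h : ∀ u, u <:+ w → c u = 0) : sec w g ∈ K y := by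
  refine ⟨fun t => c (t ++ w), ?_, ?_, ?_⟩
  · simpa using h w (List.suffix_refl _)
  · intro v
    exact hc.sum (v ++ w)
  · intro t
    rw [par_sec, hc.par_eq]
    generalize y = y
    induction t generalizing y with
    | nil =>
      rw [conv_nil, List.nil_append, h w (List.suffix_refl _), mul_zero]
      exact conv_eq_zero h y
    | cons i t ih =>
      rw [List.cons_append, conv_cons, conv_cons, ih]
      rfl

theorem sec_mem_of_R {y : ℕ → ZMod 2} (hy : y 0 = 1) {w : V} {g : A} (hg : g ∈ R y w) :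
    sec w g ∈ K y := by
  obtain ⟨⟨c, hc⟩, hs⟩ := hg
  apply sec_mem_K hc
  intro u hu
  by_cases h : w <:+ u
  · have : w = u := h.eq_of_length (le_antisymm h.length_le hu.length_le)
    rw [← this]
    exact hc.eq_zero_of_supp_self hy hs
  · exact hc.eq_zero_of_supp hy hs h

theorem sec_mem_of_Kf {y : ℕ → ZMod 2} (hy : y 0 = 1) {w : V} {m : ℕ} {g : A}
    (hg : g ∈ Kf y m) (hw : w.length ≤ m) : sec w g ∈ K y := by
  obtain ⟨c, hc⟩ := hg.1
  apply sec_mem_K hc
  intro u hu
  exact hc.eq_zero_of_Kf hy hg (hu.length_le.trans hw)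

/-- translates of elements of `K y` -/
theorem under_mem_R {y : ℕ → ZMod 2} {g : A} (hg : g ∈ K y) (v : V) : under v g ∈ R y v := by
  obtain ⟨c, hc⟩ := hg
  refine ⟨⟨fun x => if v <:+ x then c (x.take (x.length - v.length)) else 0, ?_, ?_, ?_⟩,
    supp_under v g⟩
  · split_ifs with h
    · simpa using hc.nil
    · rfl
  · intro x
    by_cases h : v <:+ x
    · obtain ⟨t, rfl⟩ := h
      have h1 : ∀ i : Fin 3, v <:+ i :: (t ++ v) := fun i => List.suffix_append (i :: t) v
      rw [if_pos (h1 0), if_pos (h1 1), if_pos (h1 2)]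
      have h2 : ∀ i : Fin 3, (i :: (t ++ v)).take ((i :: (t ++ v)).length - v.length) =
          i :: t := by
        intro i
        have : (i :: (t ++ v)).length - v.length = (i :: t).length := by
          simp only [List.length_cons, List.length_append]; omega
        rw [this, ← List.cons_append, List.take_left]
      rw [h2, h2, h2]
      exact hc.sum t
    · have h1 : ∀ i : Fin 3, (if v <:+ i :: x then
          c ((i :: x).take ((i :: x).length - v.length)) else 0) = 0 := by
        intro i
        split_ifs with h2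
        · rcases List.suffix_cons_iff.1 h2 with h3 | h3
          · rw [← h3]
            simpa using hc.nil
          · exact absurd h3 h
        · rfl
      rw [h1, h1, h1]
      simp
  · intro x
    by_cases h : v <:+ x
    · obtain ⟨t, rfl⟩ := h
      rw [par_under_append, hc.par_eq]
      generalize y = y
      induction t generalizing y with
      | nil =>
        rw [conv_nil, hc.nil, mul_zero, List.nil_append]
        symm
        apply conv_eq_zero
        intro u hu
        split_ifs with h2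
        · have : v = u := h2.eq_of_length (le_antisymm h2.length_le hu.length_le)
          rw [← this]
          simpa using hc.nil
        · rfl
      | cons i t ih =>
        rw [List.cons_append, conv_cons, conv_cons, ← ih, ← List.cons_append,
          if_pos (List.suffix_append _ _)]
        have h3 : ((i :: t) ++ v).take (((i :: t) ++ v).length - v.length) = i :: t := by
          rw [List.length_append, Nat.add_sub_cancel, List.take_left]
        rw [h3]
    · rw [par_under_of_not v g h]
      symm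
      apply conv_eq_zero
      intro u hu
      rw [if_neg]
      intro h2
      exact h (h2.trans hu)

/-! ### The group generated by the rotations below `u`, and transitivity -/

/-- the group generated by the rotations at the vertices below `u` -/
def H (u : V) : Subgroup A := Subgroup.closure {g | ∃ w, u <:+ w ∧ g = rot w}

theorem rot_mem_H {u w : V} (h : u <:+ w) : rot w ∈ H u := Subgroup.subset_closure ⟨w, h, rfl⟩

theorem H_le_R (y : ℕ → ZMod 2) (u : V) : H u ≤ R y u := by
  unfold H
  rw [Subgroup.closure_le]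
  rintro g ⟨w, hw, rfl⟩
  exact rot_mem_R y hw

theorem H_mono {u w : V} (h : u <:+ w) : H w ≤ H u := by
  unfold H
  apply Subgroup.closure_mono
  rintro g ⟨x, hx, rfl⟩
  exact ⟨x, h.trans hx, rfl⟩

theorem H_trans (u : V) (s t : V) (h : s.length = t.length) :
    ∃ g ∈ H u, ap g (s ++ u) = t ++ u := by
  induction s generalizing t with
  | nil =>
    have : t = [] := by
      cases t with
      | nil => rfl
      | cons a l => simp at h
    rw [this]
    exact ⟨1, (H u).one_mem, by simp⟩
  | cons i s ih =>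
    cases t with
    | nil => simp at h
    | cons j t =>
      obtain ⟨g, hg, h1⟩ := ih t (by simpa using h)
      obtain ⟨n, hn⟩ := rot_move (t ++ u) (lab g (s ++ u) i) j
      refine ⟨(rot (t ++ u))^n * g,
        (H u).mul_mem ((H u).pow_mem (rot_mem_H (List.suffix_append t u)) n) hg, ?_⟩
      rw [ap_mul, List.cons_append, ap_cons, h1, hn, List.cons_append]

theorem H_trans' {u v w : V} (hv : u <:+ v) (hw : u <:+ w) (h : v.length = w.length) :
    ∃ g ∈ H u, ap g v = w := by
  obtain ⟨s, rfl⟩ := hv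
  obtain ⟨t, rfl⟩ := hw
  exact H_trans u s t (by simpa using h)

/-! ### Generation of `Kf y r` -/

theorem gen_aux {y : ℕ → ZMod 2} (hy : y 0 = 1) (r : ℕ) (S : Finset V)
    (hS : ∀ v ∈ S, v.length = r) :
    ∀ g ∈ Kf y r, (∀ x, (∀ v ∈ S, ¬ v <:+ x) → ap g x = x) →
      g ∈ Subgroup.closure {h : A | ∃ v ∈ S, h ∈ R y v} := by
  classical
  induction S using Finset.induction_on with
  | empty =>
    intro g _ h2
    have : g = 1 := A_ext (fun x => h2 x (by simp))
    rw [this]
    exact Subgroup.one_mem _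
  | insert v S hv ih =>
    intro g hg h2
    have hlv : v.length = r := hS v (Finset.mem_insert_self _ _)
    have hgv : ap g v = v := (hg.2 v hlv.le).1
    set g1 := under v (sec v g) with hg1
    have hg1R : g1 ∈ R y v := under_mem_R (sec_mem_of_Kf hy hg hlv.le) v
    have hg2 : g1⁻¹ * g ∈ Kf y r :=
      (Kf y r).mul_mem ((Kf y r).inv_mem (R_le_Kf hy hlv.ge hg1R)) hg
    have h3 : ∀ x, (∀ w ∈ S, ¬ w <:+ x) → ap (g1⁻¹ * g) x = x := by
      intro x hx
      rw [ap_mul, ap_inv_eq_iff]
      by_cases hvx : v <:+ x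
      · rw [hg1, ap_under_sec hgv hvx]
      · rw [hg1R.2 x hvx]
        apply h2
        intro w hw
        rcases Finset.mem_insert.1 hw with rfl | hw
        · exact hvx
        · exact hx w hw
    have h4 := ih (fun w hw => hS w (Finset.mem_insert_of_mem hw)) _ hg2 h3
    have h5 : g = g1 * (g1⁻¹ * g) := by group
    rw [h5]
    apply Subgroup.mul_mem
    · exact Subgroup.subset_closure ⟨v, Finset.mem_insert_self _ _, hg1R⟩
    · apply Subgroup.closure_mono _ h4
      rintro h ⟨w, hw, hh⟩
      exact ⟨w, Finset.mem_insert_of_mem hw, hh⟩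

/-- the vertices of level `r` -/
noncomputable def lev (r : ℕ) : Finset V := (List.finite_length_eq (Fin 3) r).toFinset

theorem mem_lev {r : ℕ} {v : V} : v ∈ lev r ↔ v.length = r := by
  unfold lev
  simp

theorem suffix_drop_of_le {x : V} {r : ℕ} (h : r ≤ x.length) :
    x.drop (x.length - r) <:+ x ∧ (x.drop (x.length - r)).length = r := by
  refine ⟨List.drop_suffix _ _, ?_⟩
  rw [List.length_drop]
  omega

/-- elements of `Kf y r` are products of elements of the rigid stabilizers of level `r` -/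
theorem Kf_gen {y : ℕ → ZMod 2} (hy : y 0 = 1) {r : ℕ} {g : A} (hg : g ∈ Kf y r) :
    g ∈ Subgroup.closure {h : A | ∃ v : V, v.length = r ∧ h ∈ R y v} := by
  have h1 := gen_aux hy r (lev r) (fun v hv => mem_lev.1 hv) g hg (by
    intro x hx
    by_cases hl : x.length ≤ r
    · exact (hg.2 x hl).1
    · exfalso
      have := suffix_drop_of_le (x := x) (r := r) (by omega)
      exact hx _ (mem_lev.2 this.2) this.1)
  apply Subgroup.closure_mono _ h1
  rintro h ⟨v, hv, hh⟩
  exact ⟨v, mem_lev.1 hv, hh⟩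

/-- the same for elements that are trivial below `v'` -/
theorem Kf_gen_off {y : ℕ → ZMod 2} (hy : y 0 = 1) {r : ℕ} {g : A} (hg : g ∈ Kf y r)
    {v' : V} (hoff : ∀ x, v' <:+ x → ap g x = x) :
    g ∈ Subgroup.closure {h : A | ∃ v : V, v.length = r ∧ v ≠ v' ∧ h ∈ R y v} := by
  classical
  have h1 := gen_aux hy r ((lev r).erase v')
    (fun v hv => mem_lev.1 (Finset.mem_of_mem_erase hv)) g hg (by
    intro x hx
    by_cases hl : x.length ≤ r
    · exact (hg.2 x hl).1
    · have h2 := suffix_drop_of_le (x := x) (r := r) (by omega)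
      by_cases h3 : x.drop (x.length - r) = v'
      · apply hoff
        rw [← h3]
        exact h2.1
      · exfalso
        exact hx _ (Finset.mem_erase.2 ⟨h3, mem_lev.2 h2.2⟩) h2.1)
  apply Subgroup.closure_mono _ h1
  rintro h ⟨v, hv, hh⟩
  exact ⟨v, mem_lev.1 (Finset.mem_of_mem_erase hv), Finset.ne_of_mem_erase hv, hh⟩

end Pool.Agent.Helper59_Branch
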