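import Pool.Agent.Helper59_Branch.K

set_option autoImplicit false

namespace Pool.Agent.Helper59_Branch

/-- an isomorphism between open subgroups of `K y` and `K z` -/
structure LocIso (y z : ℕ → ZMod 2) where
  A1 : Subgroup A
  A2 : Subgroup A
  le1 : A1 ≤ K y
  le2 : A2 ≤ K z
  F : A → A
  F' : A → A
  map1 : ∀ g ∈ A1, F g ∈ A2
  map2 : ∀ g ∈ A2, F' g ∈ A1
  inv1 : ∀ g ∈ A1, F' (F g) = g
  inv2 : ∀ g ∈ A2, F (F' g) = g
  mul1 : ∀ g ∈ A1, ∀ h ∈ A1, F (g * h) = F g * F h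
  mul2 : ∀ g ∈ A2, ∀ h ∈ A2, F' (g * h) = F' g * F' h
  c1 : ∀ r, ∃ M, ∀ g ∈ Kf y M, g ∈ A1 ∧ F g ∈ Kf z r
  c2 : ∀ r, ∃ M, ∀ g ∈ Kf z M, g ∈ A2 ∧ F' g ∈ Kf y r

namespace LocIso

variable {y z : ℕ → ZMod 2}

/-- the inverse isomorphism -/
def symm (L : LocIso y z) : LocIso z y where
  A1 := L.A2
  A2 := L.A1
  le1 := L.le2
  le2 := L.le1
  F := L.F'
  F' := L.F
  map1 := L.map2
  map2 := L.map1
  inv1 := L.inv2
  inv2 := L.inv1
  mul1 := L.mul2
  mul2 := L.mul1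
  c1 := L.c2
  c2 := L.c1

theorem F_one (L : LocIso y z) : L.F 1 = 1 := by
  have := L.mul1 1 L.A1.one_mem 1 L.A1.one_mem
  rw [mul_one] at this
  exact (left_eq_mul.1 this)

theorem F_inv (L : LocIso y z) {g : A} (hg : g ∈ L.A1) : L.F g⁻¹ = (L.F g)⁻¹ := by
  have := L.mul1 g hg g⁻¹ (L.A1.inv_mem hg)
  rw [mul_inv_cancel, L.F_one] at this
  exact eq_inv_of_mul_eq_one_right this.symm

theorem F_eq_one (L : LocIso y z) {g : A} (hg : g ∈ L.A1) (h : L.F g = 1) : g = 1 := by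
  rw [← L.inv1 g hg, h]
  exact L.symm.F_one

/-- `Mp L v w`: the isomorphism maps `R y v` into `R z w` -/
def Mp (L : LocIso y z) (v w : V) : Prop := ∀ g ∈ R y v, g ∈ L.A1 ∧ L.F g ∈ R z w

theorem Mp.mono {L : LocIso y z} {v v' w : V} (h : L.Mp v w) (hv : v <:+ v') : L.Mp v' w :=
  fun g hg => h g (R_mono y hv hg)

theorem Mp.mono_right {L : LocIso y z} {v w w' : V} (h : L.Mp v w) (hw : w' <:+ w) :
    L.Mp v w' :=
  fun g hg => ⟨(h g hg).1, R_mono z hw (h g hg).2⟩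

theorem Mp.comparable {L : LocIso y z} {v w w' : V} (h : L.Mp v w) (h' : L.Mp v w') :
    w <:+ w' ∨ w' <:+ w := by
  by_contra hn
  rw [not_or] at hn
  have h1 := h (rot v) (rot_mem_R y (List.suffix_refl v))
  have h2 := h' (rot v) (rot_mem_R y (List.suffix_refl v))
  have h3 := h1.2.2.eq_one h2.2.2 hn.1 hn.2
  exact rot_ne_one v (L.F_eq_one h1.1 h3)

theorem Mp.uniq {L : LocIso y z} {v w w' : V} (h : L.Mp v w) (h' : L.Mp v w')
    (hl : w.length = w'.length) : w = w' := by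
  rcases h.comparable h' with h1 | h1
  · exact h1.eq_of_length hl
  · exact (h1.eq_of_length hl.symm).symm

theorem Mp.equiv {L : LocIso y z} {v w : V} (h : L.Mp v w) {g : A} (hg : g ∈ L.A1) :
    L.Mp (ap g v) (ap (L.F g) w) := by
  intro k hk
  have h1 : g⁻¹ * k * g ∈ R y v := by
    have := conj_mem_R ((K y).inv_mem (L.le1 hg)) hk
    rwa [ap_inv_ap, inv_inv] at this
  obtain ⟨h2, h3⟩ := h _ h1
  have h4 : k = g * (g⁻¹ * k * g) * g⁻¹ := by group
  have h5 : L.F k = L.F g * L.F (g⁻¹ * k * g) * (L.F g)⁻¹ := by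
    conv_lhs => rw [h4]
    rw [L.mul1 _ (L.A1.mul_mem hg h2) _ (L.A1.inv_mem hg), L.mul1 _ hg _ h2, L.F_inv hg]
  constructor
  · rw [h4]
    exact L.A1.mul_mem (L.A1.mul_mem hg h2) (L.A1.inv_mem hg)
  · rw [h5]
    exact conj_mem_R (L.le2 (L.map1 g hg)) h3

theorem exists_mover (hy : y 0 = 1) (L : LocIso y z) {r M : ℕ} (hr : Kf y r ≤ L.A1)
    (hM : ∀ g ∈ Kf z M, g ∈ L.A2 ∧ L.F' g ∈ Kf y r) (hz : z 0 = 1) {w : V}
    (hw : M < w.length) :
    ∃ v : V, v.length = r ∧ ∃ g ∈ R y v, ap (L.F g) w ≠ w := by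
  cases w with
  | nil => simp at hw
  | cons i w =>
    by_contra hcon
    push Not at hcon
    have h1 : ∀ g ∈ Subgroup.closure {h : A | ∃ v : V, v.length = r ∧ h ∈ R y v},
        g ∈ L.A1 ∧ ap (L.F g) (i :: w) = i :: w := by
      intro g hg
      induction hg using Subgroup.closure_induction with
      | mem x hx =>
        obtain ⟨v, hv, hx⟩ := hx
        exact ⟨hr (R_le_Kf hy hv.ge hx), hcon v hv x hx⟩
      | one => exact ⟨L.A1.one_mem, by rw [L.F_one, ap_one]⟩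
      | mul a b _ _ ha hb =>
        refine ⟨L.A1.mul_mem ha.1 hb.1, ?_⟩
        rw [L.mul1 _ ha.1 _ hb.1, ap_mul, hb.2, ha.2]
      | inv a _ ha =>
        refine ⟨L.A1.inv_mem ha.1, ?_⟩
        rw [L.F_inv ha.1, ap_inv_eq_iff, ha.2]
    have h2 : rot w ∈ Kf z M := R_le_Kf hz (by simp at hw; omega) (rot_mem_R z (List.suffix_refl w))
    have h3 := hM _ h2
    have h4 := h1 _ (Kf_gen hy h3.2)
    rw [L.inv2 _ h3.1] at h4
    exact rot_cons_ne w i h4.2

theorem cm_mem (hy : y 0 = 1) (hz : z 0 = 1) (L : LocIso y z) {r M : ℕ}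
    (hr : Kf y r ≤ L.A1) (hM : ∀ g ∈ Kf z M, g ∈ L.A2 ∧ L.F' g ∈ Kf y r) {w : V}
    (hw : M ≤ w.length) {v : V} (hv : v.length = r) {d : A} (hd : d ∈ R y v)
    (hdw : ap (L.F d) w ≠ w) {k l : A} (hk : k ∈ R z w) (hl : l ∈ R z w) :
    cm k l ∈ L.A2 ∧ L.F' (cm k l) ∈ R y v := by
  have hk1 := hM _ (R_le_Kf hz hw hk)
  have hl1 := hM _ (R_le_Kf hz hw hl)
  have hdA : d ∈ L.A1 := hr (R_le_Kf hy hv.ge hd)
  set k0 := L.F' k with hk0
  set l0 := L.F' l with hl0
  have hk0A : k0 ∈ L.A1 := hr hk1.2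
  have hl0A : l0 ∈ L.A1 := hr hl1.2
  have hFk : L.F k0 = k := L.inv2 k hk1.1
  have hFl : L.F l0 = l := L.inv2 l hl1.1
  have hk0v : ap k0 v = v := (hk1.2.2 v hv.le).1
  have hl0v : ap l0 v = v := (hl1.2.2 v hv.le).1
  have e0 : d * (k0 * d⁻¹ * k0⁻¹) ∈ R y v := by
    apply (R y v).mul_mem hd
    have := conj_mem_R hk1.2.1 ((R y v).inv_mem hd)
    rwa [hk0v] at this
  set e := d * (k0 * d⁻¹ * k0⁻¹) with he
  have heA : e ∈ L.A1 := hr (R_le_Kf hy hv.ge e0)
  have f0 : e * (l0 * e⁻¹ * l0⁻¹) ∈ R y v := by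
    apply (R y v).mul_mem e0
    have := conj_mem_R hl1.2.1 ((R y v).inv_mem e0)
    rwa [hl0v] at this
  have hfA : e * (l0 * e⁻¹ * l0⁻¹) ∈ L.A1 := hr (R_le_Kf hy hv.ge f0)
  have hFe : L.F e = L.F d * k * (L.F d)⁻¹ * k⁻¹ := by
    rw [he, L.mul1 _ hdA _ (L.A1.mul_mem (L.A1.mul_mem hk0A (L.A1.inv_mem hdA))
      (L.A1.inv_mem hk0A)), L.mul1 _ (L.A1.mul_mem hk0A (L.A1.inv_mem hdA)) _
      (L.A1.inv_mem hk0A), L.mul1 _ hk0A _ (L.A1.inv_mem hdA), L.F_inv hdA, L.F_inv hk0A, hFk]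
    group
  have hFf : L.F (e * (l0 * e⁻¹ * l0⁻¹)) = L.F e * l * (L.F e)⁻¹ * l⁻¹ := by
    rw [L.mul1 _ heA _ (L.A1.mul_mem (L.A1.mul_mem hl0A (L.A1.inv_mem heA))
      (L.A1.inv_mem hl0A)), L.mul1 _ (L.A1.mul_mem hl0A (L.A1.inv_mem heA)) _
      (L.A1.inv_mem hl0A), L.mul1 _ hl0A _ (L.A1.inv_mem heA), L.F_inv heA, L.F_inv hl0A, hFl]
    group
  -- the conjugate of `k` by `F d` lives on another subtree
  have ha := hk.2.conj (L.F d)
  have hlen : (ap (L.F d) w).length = w.length := length_ap _ _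
  have hcom : ∀ m ∈ R z w, (L.F d * k * (L.F d)⁻¹) * m = m * (L.F d * k * (L.F d)⁻¹) := by
    intro m hm
    exact ha.commute_of_ne hm.2 hlen hdw
  have hF : L.F (e * (l0 * e⁻¹ * l0⁻¹)) = cm k l := by
    rw [hFf, hFe]
    have h1 := hcom (k⁻¹ * l * k) ((R z w).mul_mem ((R z w).mul_mem ((R z w).inv_mem hk) hl) hk)
    set a := L.F d * k * (L.F d)⁻¹ with hadef
    unfold cm
    calc a * k⁻¹ * l * (a * k⁻¹)⁻¹ * l⁻¹ = (a * (k⁻¹ * l * k)) * a⁻¹ * l⁻¹ := by group
      _ = ((k⁻¹ * l * k) * a) * a⁻¹ * l⁻¹ := by rw [h1]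
      _ = k⁻¹ * l * k * l⁻¹ := by group
  constructor
  · rw [← hF]
    exact L.map1 _ hfA
  · rw [← hF, L.inv1 _ hfA]
    exact f0

theorem eq_of_movers (hy : y 0 = 1) (hz : z 0 = 1) (L : LocIso y z) {r M : ℕ}
    (hr : Kf y r ≤ L.A1) (hM : ∀ g ∈ Kf z M, g ∈ L.A2 ∧ L.F' g ∈ Kf y r) {w w' : V}
    (hw : M ≤ w.length) (hww' : w <:+ w') {v v' : V} (hv : v.length = r)
    (hv' : v'.length = r) {d d' : A} (hd : d ∈ R y v) (hd' : d' ∈ R y v')
    (hdw : ap (L.F d) w ≠ w) (hdw' : ap (L.F d') w' ≠ w') : v = v' := by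
  by_contra hne
  have h1 := L.cm_mem hy hz hr hM hw hv hd hdw (rot_mem_R z hww')
    (rot_mem_R z (hww'.trans (List.suffix_cons 0 w')))
  have h2 := L.cm_mem hy hz hr hM (hw.trans hww'.length_le) hv' hd' hdw'
    (rot_mem_R z (List.suffix_refl w')) (rot_mem_R z (List.suffix_cons 0 w'))
  have hl : v.length = v'.length := by rw [hv, hv']
  have h3 := h1.2.2.eq_one h2.2.2 (not_suffix_of_ne hl hne) (not_suffix_of_ne hl.symm (Ne.symm hne))
  exact cm_rot_ne_one w' (L.symm.F_eq_one h1.1 h3)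

/-- deep rigid stabilizers of the second group are mapped into the rigid stabilizers of a given
level of the first group -/
theorem fact (hy : y 0 = 1) (hz : z 0 = 1) (L : LocIso y z) {r : ℕ} (hr : Kf y r ≤ L.A1) :
    ∃ M, Kf z M ≤ L.A2 ∧ ∀ w : V, M < w.length → ∃ v : V, v.length = r ∧ L.symm.Mp w v := by
  obtain ⟨M, hM⟩ := L.c2 r
  refine ⟨M, fun g hg => (hM g hg).1, fun w hw => ?_⟩
  obtain ⟨v, hv, d, hd, hdw⟩ := L.exists_mover hy hr hM hz hw
  refine ⟨v, hv, fun k hk => ?_⟩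
  have hk1 := hM _ (R_le_Kf hz hw.le hk)
  refine ⟨hk1.1, ?_⟩
  change L.F' k ∈ R y v
  set g := L.F' k with hg
  have hgA : g ∈ L.A1 := hr hk1.2
  have hFg : L.F g = k := L.inv2 k hk1.1
  refine ⟨hk1.2.1, fun x hx => ?_⟩
  by_contra hgx
  have hxl : r ≤ x.length := by
    by_contra hlt
    exact hgx (hk1.2.2 x (by omega)).1
  obtain ⟨hs1, hs2⟩ := suffix_drop_of_le hxl
  set v' := x.drop (x.length - r) with hv'
  have hne : v ≠ v' := by
    rintro rfl
    exact hx hs1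
  have hgv' : ap g v' = v' := (hk1.2.2 v' hs2.le).1
  set g1 := under v' (sec v' g) with hg1
  have hg1R : g1 ∈ R y v' := under_mem_R (sec_mem_of_Kf hy hk1.2 hs2.le) v'
  have hg1A : g1 ∈ L.A1 := hr (R_le_Kf hy hs2.ge hg1R)
  have hg1x : ap g1 x ≠ x := by
    rw [hg1, ap_under_sec hgv' hs1]
    exact hgx
  have hFg1 : L.F g1 ≠ 1 := by
    intro h
    rw [L.F_eq_one hg1A h] at hg1x
    exact hg1x rfl
  obtain ⟨w1, hw1⟩ : ∃ w1, ap (L.F g1) w1 ≠ w1 := by
    by_contra hcon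
    push Not at hcon
    exact hFg1 (A_ext hcon)
  set w2 := List.replicate (w.length) 0 ++ w1 with hw2
  have hw2m : ap (L.F g1) w2 ≠ w2 := moved_append hw1 _
  have hw2l : w.length ≤ w2.length := by rw [hw2]; simp
  have hnot : ¬ w <:+ w2 := fun h =>
    hne (L.eq_of_movers hy hz hr hM hw.le h hv hs2 hd hg1R hdw hw2m)
  have hkw2 : ap k w2 = w2 := hk.2 _ hnot
  have hg2 : g1⁻¹ * g ∈ Kf y r :=
    (Kf y r).mul_mem ((Kf y r).inv_mem (R_le_Kf hy hs2.ge hg1R)) hk1.2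
  have hg2off : ∀ x, v' <:+ x → ap (g1⁻¹ * g) x = x := by
    intro x hx
    rw [ap_mul, ap_inv_eq_iff, hg1, ap_under_sec hgv' hx]
  have h1 : ∀ g ∈ Subgroup.closure {h : A | ∃ v : V, v.length = r ∧ v ≠ v' ∧ h ∈ R y v},
      g ∈ L.A1 ∧ ap (L.F g) w2 = w2 := by
    intro g hg
    induction hg using Subgroup.closure_induction with
    | mem x hx =>
      obtain ⟨v2, hv2, hne2, hx⟩ := hx
      refine ⟨hr (R_le_Kf hy hv2.ge hx), ?_⟩
      by_contra hcon
      exact hne2 (L.eq_of_movers hy hz hr hM (hw.le.trans hw2l) (List.suffix_refl w2) hv2 hs2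
        hx hg1R hcon hw2m)
    | one => exact ⟨L.A1.one_mem, by rw [L.F_one, ap_one]⟩
    | mul a b _ _ ha hb =>
      refine ⟨L.A1.mul_mem ha.1 hb.1, ?_⟩
      rw [L.mul1 _ ha.1 _ hb.1, ap_mul, hb.2, ha.2]
    | inv a _ ha =>
      refine ⟨L.A1.inv_mem ha.1, ?_⟩
      rw [L.F_inv ha.1, ap_inv_eq_iff, ha.2]
  obtain ⟨h2, h3⟩ := h1 _ (Kf_gen_off hy hg2 hg2off)
  have h4 : g = g1 * (g1⁻¹ * g) := by group
  have h5 : L.F g = L.F g1 * L.F (g1⁻¹ * g) := by
    conv_lhs => rw [h4]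
    exact L.mul1 _ hg1A _ h2
  have h6 : ap k w2 = ap (L.F g1) w2 := by
    rw [← hFg, h5, ap_mul, h3]
  exact hw2m (by rw [← h6, hkw2])

end LocIso

theorem child_suffix {a x : V} (h : a <:+ x) (hl : a.length < x.length) :
    ∃ m : Fin 3, (m :: a) <:+ x := by
  obtain ⟨t, rfl⟩ := h
  rcases List.eq_nil_or_concat t with rfl | ⟨t', m, rfl⟩
  · simp at hl
  · exact ⟨m, t', by simp⟩

theorem third (i j : Fin 3) (h : i ≠ j) :
    ∃ n : ℕ, n < 3 ∧ ((finRotate 3)^n) i = j ∧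
      ((finRotate 3)^n) (((finRotate 3)^n) j) = i ∧
      ∀ m : Fin 3, m = i ∨ m = j ∨ m = ((finRotate 3)^n) j := by
  revert i j
  decide

theorem suffix_iff_drop' {v x : V} {N r : ℕ} (hx : x.length = N) (hv : v.length = r) :
    v <:+ x ↔ x.drop (N - r) = v := by
  rw [suffix_iff_drop, hx, hv]
  exact eq_comm

/-- a partition of level `N` below `u` invariant under `H u` is the partition by prefixes of
some length -/
theorem partition_lemma (u : V) (N : ℕ) (huN : u.length ≤ N) (ω : V → V)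
    (inv : ∀ g ∈ H u, ∀ v v' : V, u <:+ v → u <:+ v' → v.length = N → v'.length = N →
      ω v = ω v' → ω (ap g v) = ω (ap g v')) :
    ∃ r, u.length ≤ r ∧ r ≤ N ∧ ∀ v v' : V, u <:+ v → u <:+ v' → v.length = N →
      v'.length = N → (ω v = ω v' ↔ v.drop (N - r) = v'.drop (N - r)) := by
  classical
  let P : ℕ → Prop := fun r => u.length ≤ r ∧ r ≤ N ∧ ∀ v v' : V, u <:+ v → u <:+ v' →
    v.length = N → v'.length = N → v.drop (N - r) = v'.drop (N - r) → ω v = ω v'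
  have hP : ∃ r, P r := ⟨N, huN, le_rfl, fun v v' _ _ _ _ h => by
    simp only [Nat.sub_self, List.drop_zero] at h
    rw [h]⟩
  obtain ⟨hr1, hr2, hr3⟩ := Nat.find_spec hP
  set r := Nat.find hP with hr
  refine ⟨r, hr1, hr2, fun v v' hv hv' hl hl' => ⟨fun hω => ?_, hr3 v v' hv hv' hl hl'⟩⟩
  by_contra hne
  -- the branching level
  have hQ : ∃ q, u.length ≤ q ∧ q < r ∧ v.drop (N - q) = v'.drop (N - q) ∧
      v.drop (N - (q + 1)) ≠ v'.drop (N - (q + 1)) := by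
    by_contra hcon
    push Not at hcon
    have : ∀ n, u.length + n ≤ r →
        v.drop (N - (u.length + n)) = v'.drop (N - (u.length + n)) := by
      intro n
      induction n with
      | zero =>
        intro _
        rw [add_zero, (suffix_iff_drop' hl rfl).1 hv, (suffix_iff_drop' hl' rfl).1 hv']
      | succ n ih =>
        intro hn
        have h1 := hcon (u.length + n) (by omega) (by omega) (ih (by omega))
        rw [add_assoc] at h1
        exact h1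
    have h2 := this (r - u.length) (by omega)
    have h3 : u.length + (r - u.length) = r := by omega
    rw [h3] at h2
    exact hne h2
  obtain ⟨q, hq1, hq2, hq3, hq4⟩ := hQ
  set a := v.drop (N - q) with ha
  have hal : a.length = q := by rw [ha, List.length_drop, hl]; omega
  have hav : a <:+ v := List.drop_suffix _ _
  have hav' : a <:+ v' := by rw [hq3]; exact List.drop_suffix _ _
  have hua : u <:+ a := suffix_of_le hv hav (by rw [hal]; exact hq1)
  obtain ⟨i, hi⟩ := child_suffix hav (by rw [hal, hl]; omega)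
  obtain ⟨j, hj⟩ := child_suffix hav' (by rw [hal, hl']; omega)
  have hij : i ≠ j := by
    rintro rfl
    apply hq4
    rw [(suffix_iff_drop' hl (by simp [hal])).1 hi, (suffix_iff_drop' hl' (by simp [hal])).1 hj]
  have huj : ∀ m : Fin 3, u <:+ m :: a := fun m => hua.trans (List.suffix_cons m a)
  -- step 1
  have hs1 : ∀ x : V, (j :: a) <:+ x → x.length = N → ω x = ω v := by
    intro x hx hxl
    obtain ⟨g, hg, hgx⟩ := H_trans' hj hx (by rw [hl', hxl])
    have h1 : Supp (j :: a) g := (H_le_R (fun _ => 0) _ hg).2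
    have h2 : ap g v = v := by
      apply h1
      intro h3
      have := suffix_eq_of_length hi h3 (by simp)
      simp only [List.cons.injEq, and_true] at this
      exact hij this
    have h3 := inv g (H_mono (huj j) hg) v v' hv hv' hl hl' hω
    rw [h2, hgx] at h3
    exact h3.symm
  obtain ⟨n, _, hn1, hn2, hn3⟩ := third i j hij
  set k := ((finRotate 3)^n) j with hk
  set ρ := (rot a)^n with hρ
  have hρH : ρ ∈ H u := (H u).pow_mem (rot_mem_H hua) n
  have hρi : ap ρ (i :: a) = j :: a := by rw [hρ, rot_pow_cons, hn1]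
  have hρj : ap ρ (j :: a) = k :: a := by rw [hρ, rot_pow_cons]
  have hρk : ap ρ (k :: a) = i :: a := by rw [hρ, rot_pow_cons, hn2]
  have hρv : ω (ap ρ v) = ω v := by
    apply hs1
    · rw [← hρi]
      exact ap_suffix ρ hi
    · rw [length_ap, hl]
  have step : ∀ m m' : Fin 3, ap ρ (m :: a) = m' :: a →
      (∀ x : V, (m :: a) <:+ x → x.length = N → ω x = ω v) →
      (∀ x : V, (m' :: a) <:+ x → x.length = N → ω x = ω v) := by
    intro m m' hm h x hx hxl
    have h1 : (m :: a) <:+ ap ρ⁻¹ x := by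
      rw [← ap_suffix_iff ρ, ap_ap_inv, hm]
      exact hx
    have h2 := h _ h1 (by rw [length_ap, hxl])
    have h3 := inv ρ hρH _ _ ((huj m).trans h1) hv (by rw [length_ap, hxl]) hl h2
    rw [ap_ap_inv, hρv] at h3
    exact h3
  have hs2 := step j k hρj hs1
  have hs3 := step k i hρk hs2
  have hall : ∀ x : V, a <:+ x → x.length = N → ω x = ω v := by
    intro x hx hxl
    obtain ⟨m, hm⟩ := child_suffix hx (by rw [hal, hxl]; omega)
    rcases hn3 m with rfl | rfl | rfl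
    · exact hs3 x hm hxl
    · exact hs1 x hm hxl
    · exact hs2 x hm hxl
  -- now `P q`
  have hPq : P q := by
    refine ⟨hq1, by omega, fun x x' hx hx' hxl hxl' hd => ?_⟩
    set b := x.drop (N - q) with hb
    have hbl : b.length = q := by rw [hb, List.length_drop, hxl]; omega
    have hbx : b <:+ x := List.drop_suffix _ _
    have hbx' : b <:+ x' := by rw [hd]; exact List.drop_suffix _ _
    have hub : u <:+ b := suffix_of_le hx hbx (by rw [hbl]; exact hq1)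
    obtain ⟨g, hg, hgab⟩ := H_trans' hua hub (by rw [hal, hbl])
    have h1 : ∀ x : V, b <:+ x → x.length = N → ω (ap g⁻¹ x) = ω v := by
      intro x hx hxl
      apply hall
      · rw [← ap_suffix_iff g, ap_ap_inv, hgab]
        exact hx
      · rw [length_ap, hxl]
    have h2 : ∀ x : V, b <:+ x → u <:+ ap g⁻¹ x := by
      intro x hx
      apply hua.trans
      rw [← ap_suffix_iff g, ap_ap_inv, hgab]
      exact hx
    have h3 := inv g hg _ _ (h2 x hbx) (h2 x' hbx') (by rw [length_ap, hxl])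
      (by rw [length_ap, hxl']) ((h1 x hbx hxl).trans (h1 x' hbx' hxl').symm)
    rw [ap_ap_inv, ap_ap_inv] at h3
    exact h3
  exact Nat.find_min hP hq2 hPq

end Pool.Agent.Helper59_Branch
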