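import Pool.Agent.Helper59_Branch.Rigid

set_option autoImplicit false

namespace Pool.Agent.Helper59_Branch

namespace LocIso

variable {y z : ℕ → ZMod 2}

theorem exists_deep_moved {g : A} (h : g ≠ 1) (n : ℕ) : ∃ x : V, n ≤ x.length ∧ ap g x ≠ x := by
  obtain ⟨x, hx⟩ : ∃ x, ap g x ≠ x := by
    by_contra hcon
    push Not at hcon
    exact h (A_ext hcon)
  exact ⟨List.replicate n 0 ++ x, by simp, moved_append hx _⟩

/-- if `g ∈ A1` commutes with the preimage of the rotation at `w`, then `F g` fixes `w` -/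
theorem fix_of_commute_symm (L : LocIso y z) {g : A} (hg : g ∈ L.A1) {w : V}
    (hw : rot w ∈ L.A2) (h : g * L.F' (rot w) = L.F' (rot w) * g) : ap (L.F g) w = w := by
  apply fix_of_commute_rot
  have h1 := L.map2 _ hw
  have h2 := congrArg L.F h
  rw [L.mul1 _ hg _ h1, L.mul1 _ h1 _ hg, L.inv2 _ hw] at h2
  exact h2

theorem general (hy : y 0 = 1) (hz : z 0 = 1) (L : LocIso y z) (u : V) (S : Set V) (M' : ℕ)
    (hS : ∀ w ∈ S, w.length = M') (hu : Kf y u.length ≤ L.A1)
    (h1 : ∀ w ∈ S, L.symm.Mp w u) (N : ℕ) (huN : u.length ≤ N)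
    (h2 : ∀ v : V, u <:+ v → v.length = N → ∃ w, w ∈ S ∧ L.Mp v w) :
    ∃ r, u.length ≤ r ∧ ∃ β : V → V,
      (∀ a : V, u <:+ a → a.length = r → β a ∈ S ∧ L.Mp a (β a) ∧ L.symm.Mp (β a) a) ∧
      (∀ a b : V, u <:+ a → u <:+ b → a.length = r → b.length = r → β a = β b → a = b) ∧
      (∀ w ∈ S, ∃ a : V, u <:+ a ∧ a.length = r ∧ β a = w) := by
  choose! ω hω using h2
  have hRu : ∀ g ∈ R y u, g ∈ L.A1 := fun g hg => hu (R_le_Kf hy le_rfl hg)
  have eqv : ∀ g ∈ R y u, ∀ v : V, u <:+ v → v.length = N →
      ω (ap g v) = ap (L.F g) (ω v) := by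
    intro g hg v hv hl
    have huv : u <:+ ap g v := by
      have := ap_suffix g hv
      rwa [hg.2.fix_self] at this
    have h3 := hω (ap g v) huv (by rw [length_ap, hl])
    have h4 := (hω v hv hl).2.equiv (hRu g hg)
    apply h3.2.uniq h4
    rw [length_ap, hS _ h3.1, hS _ (hω v hv hl).1]
  obtain ⟨r, hur, hrN, hpart⟩ := partition_lemma u N huN ω (by
    intro g hg v v' hv hv' hl hl' h
    rw [eqv g (H_le_R y u hg) v hv hl, eqv g (H_le_R y u hg) v' hv' hl', h])
  set ext : V → V := fun a => List.replicate (N - r) 0 ++ a with hext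
  have hexta : ∀ a : V, a <:+ ext a := fun a => List.suffix_append _ _
  have hextl : ∀ a : V, a.length = r → (ext a).length = N := by
    intro a ha
    rw [hext]
    simp only [List.length_append, List.length_replicate, ha]
    omega
  set β : V → V := fun a => ω (ext a) with hβ
  -- vertices of level `N` below `a`
  have key : ∀ a v : V, u <:+ a → a.length = r → a <:+ v → v.length = N → ω v = β a := by
    intro a v hua ha hav hl
    apply (hpart v (ext a) (hua.trans hav) (hua.trans (hexta a)) hl (hextl a ha)).2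
    rw [(suffix_iff_drop' hl ha).1 hav, (suffix_iff_drop' (hextl a ha) ha).1 (hexta a)]
  have key' : ∀ a v : V, u <:+ a → a.length = r → u <:+ v → v.length = N → ω v = β a →
      a <:+ v := by
    intro a v hua ha huv hl h
    rw [suffix_iff_drop' hl ha]
    rw [(hpart v (ext a) huv (hua.trans (hexta a)) hl (hextl a ha)).1 h,
      (suffix_iff_drop' (hextl a ha) ha).1 (hexta a)]
  have hβω : ∀ a : V, u <:+ a → a.length = r → β a ∈ S ∧ L.Mp (ext a) (β a) :=
    fun a hua ha => hω (ext a) (hua.trans (hexta a)) (hextl a ha)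
  obtain ⟨M, hMA, hM⟩ := L.fact hy hz (r := r) (fun g hg => hu (Kf_mono y hur hg))
  -- first inclusion
  have incl1 : ∀ a : V, u <:+ a → a.length = r → L.Mp a (β a) := by
    intro a hua ha g hg
    have hgA : g ∈ L.A1 := hRu g (R_mono y hua hg)
    refine ⟨hgA, L.le2 (L.map1 g hgA), fun x hx => ?_⟩
    by_contra hmx
    have hβfix : ap (L.F g) (β a) = β a := by
      have h3 := eqv g (R_mono y hua hg) (ext a) (hua.trans (hexta a)) (hextl a ha)
      have h4 : a <:+ ap g (ext a) := by
        have := ap_suffix g (hexta a)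
        rwa [hg.2.fix_self] at this
      have h5 := key a (ap g (ext a)) hua ha h4 (by rw [length_ap, hextl a ha])
      rw [← h3, h5]
    have hnx : ¬ x <:+ β a := fun h => hmx (fix_of_suffix h hβfix)
    set x2 := List.replicate (M + M' + 1) 0 ++ x with hx2
    have hmx2 : ap (L.F g) x2 ≠ x2 := moved_append hmx _
    have hx2l : M + M' + 1 ≤ x2.length := by rw [hx2]; simp
    have hnx2 : ¬ β a <:+ x2 := by
      intro h
      rcases le_total (β a).length x.length with hl | hl
      · exact hx (suffix_of_le h (List.suffix_append _ _) hl)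
      · exact hnx (suffix_of_le (List.suffix_append _ _) h hl)
    obtain ⟨v1, hv1, hm1⟩ := hM x2 (by omega)
    have hrot := hm1 (rot x2) (rot_mem_R z (List.suffix_refl x2))
    by_cases hva : v1 = a
    · -- then the preimage of the rotation at `x2` moves some deep vertex below `a`
      rw [hva] at hrot
      have hne : L.F' (rot x2) ≠ 1 := by
        intro h
        exact rot_ne_one x2 (L.symm.F_eq_one hrot.1 h)
      obtain ⟨x3, hx3l, hx3⟩ := exists_deep_moved hne N
      have hax3 : a <:+ x3 := by
        by_contra h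
        exact hx3 (hrot.2.2 x3 h)
      obtain ⟨hs1, hs2⟩ := suffix_drop_of_le hx3l
      set v4 := x3.drop (x3.length - N) with hv4
      have hav4 : a <:+ v4 := suffix_of_le hax3 hs1 (by rw [hs2, ha]; exact hrN)
      have h5 := key a v4 hua ha hav4 hs2
      have h6 : L.Mp x3 (β a) := by
        rw [← h5]
        exact (hω v4 (hua.trans hav4) hs2).2.mono hs1
      have h7 := h6 (rot x3) (rot_mem_R y (List.suffix_refl x3))
      -- `rot x2` commutes with `R z (β a)`
      have hnx3 : ¬ x2 <:+ β a := by
        intro h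
        have := h.length_le
        rw [hS _ (hβω a hua ha).1] at this
        omega
      have h8 : L.F (rot x3) * rot x2 = rot x2 * L.F (rot x3) :=
        h7.2.2.commute (supp_rot x2) hnx2 hnx3
      have h9 := congrArg L.F' h8
      rw [L.mul2 _ (L.map1 _ h7.1) _ hrot.1, L.mul2 _ hrot.1 _ (L.map1 _ h7.1),
        L.inv1 _ h7.1] at h9
      exact hx3 (fix_of_commute_rot h9.symm)
    · apply hmx2
      apply L.fix_of_commute_symm hgA hrot.1
      exact hg.2.commute_of_ne hrot.2.2 (by rw [ha, hv1]) (Ne.symm hva)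
  -- second inclusion
  have incl2 : ∀ a : V, u <:+ a → a.length = r → L.symm.Mp (β a) a := by
    intro a hua ha k hk
    have h3 := h1 (β a) (hβω a hua ha).1 k hk
    have hgA : L.F' k ∈ L.A1 := L.map2 _ h3.1
    refine ⟨h3.1, L.le1 hgA, ?_⟩
    change Supp a (L.F' k)
    intro x hx
    by_contra hmx
    set g := L.F' k with hg
    have hgu : g ∈ R y u := h3.2
    have hFg : L.F g = k := L.inv2 k h3.1
    have hga : ap g a = a := by
      have h4 := eqv g hgu (ext a) (hua.trans (hexta a)) (hextl a ha)
      rw [hFg] at h4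
      have h5 : ap k (ω (ext a)) = β a := hk.2.fix_self
      rw [h5] at h4
      have huv : u <:+ ap g (ext a) := by
        have := ap_suffix g (hua.trans (hexta a))
        rwa [hgu.2.fix_self] at this
      have h6 := key' a (ap g (ext a)) hua ha huv (by rw [length_ap, hextl a ha]) h4
      have h7 : ap g a <:+ ap g (ext a) := ap_suffix g (hexta a)
      exact (suffix_eq_of_length h7 h6 (by rw [length_ap]))
    have hnx : ¬ x <:+ a := fun h => hmx (fix_of_suffix h hga)
    set x2 := List.replicate N 0 ++ x with hx2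
    have hmx2 : ap g x2 ≠ x2 := moved_append hmx _
    have hx2l : N ≤ x2.length := by rw [hx2]; simp
    have hnx2 : ¬ a <:+ x2 := by
      intro h
      rcases le_total a.length x.length with hl | hl
      · exact hx (suffix_of_le h (List.suffix_append _ _) hl)
      · exact hnx (suffix_of_le (List.suffix_append _ _) h hl)
    have hux2 : u <:+ x2 := by
      by_contra h
      exact hmx2 (hgu.2 x2 h)
    obtain ⟨hs1, hs2⟩ := suffix_drop_of_le hx2l
    set v2 := x2.drop (x2.length - N) with hv2
    have huv2 : u <:+ v2 := suffix_of_le hux2 hs1 (by rw [hs2]; exact huN)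
    have hωv2 := hω v2 huv2 hs2
    have hne : ω v2 ≠ β a := fun h => hnx2 ((key' a v2 hua ha huv2 hs2 h).trans hs1)
    have h7 := (hωv2.2.mono hs1) (rot x2) (rot_mem_R y (List.suffix_refl x2))
    have h8 : L.F (rot x2) * k = k * L.F (rot x2) :=
      h7.2.2.commute_of_ne hk.2 (by rw [hS _ hωv2.1, hS _ (hβω a hua ha).1]) hne
    have h9 := congrArg L.F' h8
    rw [L.mul2 _ (L.map1 _ h7.1) _ h3.1, L.mul2 _ h3.1 _ (L.map1 _ h7.1),
      L.inv1 _ h7.1] at h9
    exact hmx2 (fix_of_commute_rot h9.symm)
  refine ⟨r, hur, β, fun a hua ha => ⟨(hβω a hua ha).1, incl1 a hua ha, incl2 a hua ha⟩,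
    ?_, ?_⟩
  · intro a b hua hub ha hb h
    have h3 : a <:+ ext b := key' a (ext b) hua ha (hub.trans (hexta b)) (hextl b hb) h.symm
    exact suffix_eq_of_length h3 (hexta b) (by rw [ha, hb])
  · -- surjectivity
    intro w hw
    have h3 := h1 w hw (rot w) (rot_mem_R z (List.suffix_refl w))
    have hne : L.F' (rot w) ≠ 1 := by
      intro h
      exact rot_ne_one w (L.symm.F_eq_one h3.1 h)
    obtain ⟨x, hxl, hx⟩ := exists_deep_moved hne N
    have hux : u <:+ x := by
      by_contra h
      exact hx (h3.2.2 x h)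
    obtain ⟨hs1, hs2⟩ := suffix_drop_of_le hxl
    set v := x.drop (x.length - N) with hv
    have huv : u <:+ v := suffix_of_le hux hs1 (by rw [hs2]; exact huN)
    have hωv := hω v huv hs2
    have hvw : ω v = w := by
      by_contra hne'
      have h7 := (hωv.2.mono hs1) (rot x) (rot_mem_R y (List.suffix_refl x))
      have h8 : L.F (rot x) * rot w = rot w * L.F (rot x) :=
        h7.2.2.commute_of_ne (supp_rot w) (by rw [hS _ hωv.1, hS _ hw]) hne'
      have h9 := congrArg L.F' h8
      rw [L.mul2 _ (L.map1 _ h7.1) _ h3.1, L.mul2 _ h3.1 _ (L.map1 _ h7.1),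
        L.inv1 _ h7.1] at h9
      exact hx (fix_of_commute_rot h9.symm)
    obtain ⟨hs3, hs4⟩ := suffix_drop_of_le (x := v) (r := r) (by rw [hs2]; exact hrN)
    set a := v.drop (v.length - r) with ha
    have hua : u <:+ a := suffix_of_le huv hs3 (by rw [hs4]; exact hur)
    refine ⟨a, hua, hs4, ?_⟩
    rw [← key a v hua hs4 hs3 hs2, hvw]

/-- a pair of corresponding vertices -/
structure Pair (L : LocIso y z) (v w : V) : Prop where
  hv : Kf y v.length ≤ L.A1
  hw : Kf z w.length ≤ L.A2
  m1 : L.Mp v w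
  m2 : L.symm.Mp w v

theorem Pair.uniq {L : LocIso y z} {v w w' : V} (h : L.Pair v w) (h' : L.Pair v w')
    (hl : w.length = w'.length) : w = w' := h.m1.uniq h'.m1 hl

theorem Pair.equiv {L : LocIso y z} {v w : V} (h : L.Pair v w) {g : A} (hg : g ∈ L.A1) :
    L.Pair (ap g v) (ap (L.F g) w) where
  hv := by rw [length_ap]; exact h.hv
  hw := by rw [length_ap]; exact h.hw
  m1 := h.m1.equiv hg
  m2 := by
    have := h.m2.equiv (L.map1 g hg)
    change L.symm.Mp (ap (L.F g) w) (ap (L.F' (L.F g)) v) at this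
    rwa [L.inv1 g hg] at this

theorem exists_pair (hy : y 0 = 1) (hz : z 0 = 1) (L : LocIso y z) :
    ∃ v w, L.Pair v w := by
  obtain ⟨m0, hm0⟩ := L.c1 0
  obtain ⟨M, hMA, hM⟩ := L.fact hy hz (r := m0) (fun g hg => (hm0 g hg).1)
  set u : V := List.replicate m0 0 with hu
  have hul : u.length = m0 := by simp [hu]
  have huA : Kf y u.length ≤ L.A1 := by rw [hul]; exact fun g hg => (hm0 g hg).1
  have hA2 : Kf z (M + 1) ≤ L.A2 := fun g hg => hMA (Kf_mono z (Nat.le_succ M) hg)
  obtain ⟨N0, hN0A, hN0⟩ := L.symm.fact hz hy (r := M + 1) hA2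
  set S : Set V := {w | w.length = M + 1 ∧ L.symm.Mp w u} with hS
  obtain ⟨r, hur, β, hb1, hb2, hb3⟩ := L.general hy hz u S (M + 1) (fun w hw => hw.1) huA
    (fun w hw => hw.2) (max (N0 + 1) u.length) (le_max_right _ _) (by
      intro v hv hl
      have hl' : N0 < v.length := by rw [hl]; exact lt_of_lt_of_le (Nat.lt_succ_self _) (le_max_left _ _)
      obtain ⟨w, hw, hwm⟩ := hN0 v hl'
      refine ⟨w, ⟨hw, ?_⟩, hwm⟩
      obtain ⟨v', hv', hm'⟩ := hM w (by omega)
      -- `v' = u`
      have h3 := hwm (rot v) (rot_mem_R y (List.suffix_refl v))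
      have h4 := hm' _ h3.2
      have h5 : L.symm.F (L.symm.symm.F (rot v)) = rot v := L.inv1 _ h3.1
      rw [h5] at h4
      have h6 : v' <:+ 0 :: v := by
        by_contra h
        exact rot_cons_ne v 0 (h4.2.2 _ h)
      have h7 : u <:+ 0 :: v := hv.trans (List.suffix_cons 0 v)
      have h8 : v' = u := suffix_eq_of_length h6 h7 (by rw [hv', hul])
      rw [← h8]
      exact hm')
  set a : V := List.replicate (r - u.length) 0 ++ u with ha
  have hua : u <:+ a := List.suffix_append _ _
  have hal : a.length = r := by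
    rw [ha, List.length_append, List.length_replicate]
    omega
  obtain ⟨h3, h4, h5⟩ := hb1 a hua hal
  refine ⟨a, β a, ?_, ?_, h4, h5⟩
  · exact fun g hg => huA (Kf_mono y hua.length_le hg)
  · rw [h3.1]
    exact hA2

theorem pair_step (hy : y 0 = 1) (hz : z 0 = 1) (L : LocIso y z) {v w : V}
    (h : L.Pair v w) : ∃ σ : Equiv.Perm (Fin 3), ∀ i, L.Pair (i :: v) (σ i :: w) := by
  have hA2 : Kf z (w.length + 1) ≤ L.A2 := fun g hg => h.hw (Kf_mono z (Nat.le_succ _) hg)
  have hA1 : Kf y (v.length + 1) ≤ L.A1 := fun g hg => h.hv (Kf_mono y (Nat.le_succ _) hg)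
  obtain ⟨N0, hN0A, hN0⟩ := L.symm.fact hz hy (r := w.length + 1) hA2
  set S : Set V := {x | ∃ j : Fin 3, x = j :: w} with hS
  obtain ⟨r, hur, β, hb1, hb2, hb3⟩ := L.general hy hz v S (w.length + 1)
    (by rintro x ⟨j, rfl⟩; simp) h.hv
    (by
      rintro x ⟨j, rfl⟩
      exact h.m2.mono (List.suffix_cons j w))
    (max (N0 + 1) v.length) (le_max_right _ _) (by
      intro x hx hl
      have hl' : N0 < x.length := by
        rw [hl]; exact lt_of_lt_of_le (Nat.lt_succ_self _) (le_max_left _ _)
      obtain ⟨w', hw', hwm⟩ := hN0 x hl'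
      refine ⟨w', ?_, hwm⟩
      have h3 : L.Mp x w := h.m1.mono hx
      have h4 : w <:+ w' := by
        rcases h3.comparable hwm with h5 | h5
        · exact h5
        · have := h5.length_le
          rw [hw'] at this
          omega
      obtain ⟨t, rfl⟩ := h4
      rw [List.length_append] at hw'
      match t, hw' with
      | [j], _ => exact ⟨j, rfl⟩
      | [], hw' => simp at hw'
      | a :: b :: t, hw' => simp at hw'; omega)
  -- cardinality: `r = |v| + 1`
  have hbx : ∀ t : List.Vector (Fin 3) (r - v.length), ∃ j : Fin 3, β (t.1 ++ v) = j :: w := by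
    intro t
    have hl : (t.1 ++ v).length = r := by
      rw [List.length_append, t.2]; omega
    exact (hb1 (t.1 ++ v) (List.suffix_append _ _) hl).1
  choose φ hφ using hbx
  have hφb : Function.Bijective φ := by
    constructor
    · intro s t hst
      have hl : ∀ t : List.Vector (Fin 3) (r - v.length), (t.1 ++ v).length = r := by
        intro t
        rw [List.length_append, t.2]; omega
      have h3 := hb2 (s.1 ++ v) (t.1 ++ v) (List.suffix_append _ _) (List.suffix_append _ _)
        (hl s) (hl t) (by rw [hφ, hφ, hst])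
      apply Subtype.ext
      exact List.append_cancel_right h3
    · intro j
      obtain ⟨a, hva, hal, hba⟩ := hb3 (j :: w) ⟨j, rfl⟩
      obtain ⟨t, rfl⟩ := hva
      have htl : t.length = r - v.length := by
        rw [List.length_append] at hal; omega
      refine ⟨⟨t, htl⟩, ?_⟩
      have h3 := hφ ⟨t, htl⟩
      rw [hba] at h3
      simp only [List.cons.injEq, and_true] at h3
      exact h3.symm
  have hcard := Fintype.card_of_bijective hφb
  rw [card_vector, Fintype.card_fin] at hcard
  have hr1 : r - v.length = 1 := by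
    have h3 : 3 ^ (r - v.length) = 3 ^ 1 := by rw [hcard]; norm_num
    exact Nat.pow_right_injective (le_refl 2 |>.trans (by norm_num)) h3
  have hr : r = v.length + 1 := by omega
  -- the permutation
  have hb1' : ∀ i : Fin 3, ∃ j : Fin 3, β (i :: v) = j :: w := by
    intro i
    exact (hb1 (i :: v) (List.suffix_cons i v) (by simp [hr])).1
  choose σ hσ using hb1'
  have hinj : Function.Injective σ := by
    intro i j hij
    have h3 := hb2 (i :: v) (j :: v) (List.suffix_cons i v) (List.suffix_cons j v)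
      (by simp [hr]) (by simp [hr]) (by rw [hσ, hσ, hij])
    simpa using h3
  refine ⟨Equiv.ofBijective σ (Finite.injective_iff_bijective.1 hinj), fun i => ?_⟩
  have h3 := hb1 (i :: v) (List.suffix_cons i v) (by simp [hr])
  rw [hσ] at h3
  exact ⟨by simpa using hA1, by simpa using hA2, h3.2.1, h3.2.2⟩

/-- the isomorphism is implemented by a tree automorphism on a subtree -/
theorem exists_conj (hy : y 0 = 1) (hz : z 0 = 1) (L : LocIso y z) :
    ∃ f : A, ∀ g ∈ K y, f * g * f⁻¹ ∈ K z := by
  obtain ⟨v0, w0, h0⟩ := L.exists_pair hy hz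
  have hex : ∀ x : V, ∃ x' : V, x'.length = x.length ∧ L.Pair (x ++ v0) (x' ++ w0) := by
    intro x
    induction x with
    | nil => exact ⟨[], rfl, h0⟩
    | cons i x ih =>
      obtain ⟨x', hl, hp⟩ := ih
      obtain ⟨σ, hσ⟩ := L.pair_step hy hz hp
      exact ⟨σ i :: x', by simp [hl], hσ i⟩
  choose f0 hf0l hf0 using hex
  have hst : ∀ x : V, ∃ σ : Equiv.Perm (Fin 3), ∀ i,
      L.Pair (i :: (x ++ v0)) (σ i :: (f0 x ++ w0)) := fun x => L.pair_step hy hz (hf0 x)
  choose l hl using hst
  have hfwd : ∀ x : V, ap (ofP l) x = f0 x := by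
    intro x
    rw [ap_ofP]
    induction x with
    | nil =>
      have := hf0l []
      simp only [List.length_nil, List.length_eq_zero_iff] at this
      rw [this]
      rfl
    | cons i x ih =>
      rw [fwd, ih]
      have h1 := hl x i
      have h2 := hf0 (i :: x)
      have h3 := h1.uniq h2 (by simp [hf0l]; omega)
      have h4 : (l x i :: f0 x) ++ w0 = f0 (i :: x) ++ w0 := h3
      exact List.append_cancel_right h4
  refine ⟨ofP l, fun g hg => ?_⟩
  set f := ofP l with hf
  have hpair : ∀ x : V, L.Pair (x ++ v0) (ap f x ++ w0) := by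
    intro x
    rw [hfwd]
    exact hf0 x
  have hgR : under v0 g ∈ R y v0 := under_mem_R hg v0
  obtain ⟨hgA, hGR⟩ := h0.m1 _ hgR
  set G := L.F (under v0 g) with hG
  have hGw : ap G w0 = w0 := hGR.2.fix_self
  have hkey : ∀ x : V, ap (sec w0 G) (ap f x) = ap f (ap g x) := by
    intro x
    have h1 := (hpair x).equiv hgA
    rw [ap_under_append] at h1
    have h2 := hpair (ap g x)
    have h3 := h1.uniq h2 (by simp)
    rw [← hG, ← ap_sec_append hGw] at h3
    exact List.append_cancel_right h3
  have heq : f * g * f⁻¹ = sec w0 G := by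
    apply A_ext
    intro t
    rw [ap_mul, ap_mul]
    have h1 := hkey (ap f⁻¹ t)
    rw [ap_ap_inv] at h1
    rw [h1]
  rw [heq]
  exact sec_mem_of_R hz hGR

end LocIso

/-! ### The conjugation determines the sequence -/

/-- `0 ⋯ 0` -/
def zs (n : ℕ) : V := List.replicate n 0

theorem conv_zs (c : V → ZMod 2) (n : ℕ) (y : ℕ → ZMod 2) :
    conv c (zs n) y = ∑ k ∈ Finset.range (n + 1), y k * c (zs (n - k)) := by
  induction n generalizing y with
  | zero => simp [zs, conv_nil]
  | succ n ih =>
    have h1 : zs (n + 1) = 0 :: zs n := rfl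
    rw [h1, conv_cons, ih, Finset.sum_range_succ' _ (n + 1)]
    simp only [Nat.sub_zero, Nat.add_sub_add_right]
    rw [h1]
    ring

theorem eq_of_conj {y z : ℕ → ZMod 2} (hy : y 0 = 1) (hz : z 0 = 1)
    (h : ∃ f : A, ∀ g ∈ K y, f * g * f⁻¹ ∈ K z) : y = z := by
  obtain ⟨f, hf⟩ := h
  -- the test element
  set c : V → ZMod 2 := fun v => if v = [0] ∨ v = [1] then 1 else 0 with hc
  set g : A := ofP (fun v => if conv c v y = 1 then Equiv.swap 1 2 else 1) with hg
  have hpar : ∀ v, par g v = conv c v y := by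
    intro v
    unfold par
    rw [hg, lab_ofP]
    have h2 : ∀ a : ZMod 2, a = 0 ∨ a = 1 := by decide
    rcases h2 (conv c v y) with h3 | h3
    · rw [h3]
      simp
    · rw [h3, if_pos rfl]
      unfold sg
      rw [Equiv.Perm.sign_swap (by decide)]
      decide
  have hcg : IsC y g c := by
    refine ⟨by simp [hc], fun v => ?_, hpar⟩
    by_cases hv : v = []
    · rw [hv, hc]
      decide
    · have h1 : ∀ i : Fin 3, c (i :: v) = 0 := by
        intro i
        rw [hc]
        simp [hv]
      rw [h1, h1, h1]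
      simp
  have hgK : g ∈ K y := ⟨c, hcg⟩
  obtain ⟨c', hc'⟩ := hf g hgK
  set d : V → ZMod 2 := fun v => c' (ap f v) with hd
  have hd0 : d [] = 0 := by rw [hd]; simp [hc'.nil]
  have hdsum : ∀ v, d (0 :: v) + d (1 :: v) + d (2 :: v) = 0 := by
    intro v
    rw [hd]
    simp only
    rw [sum_comp_ap, hc'.sum]
  -- the cohomological relation
  have hrel : ∀ v, conv d v z = conv c v y + par f (ap g v) + par f v := by
    intro v
    rw [hd, conv_comp, ← hc'.par_eq, par_mul, par_mul, par_inv]
    simp only [ap_inv_ap]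
    rw [hpar]
    ring
  have hfix : ∀ v, ap g v = v → conv d v z = conv c v y := by
    intro v hv
    rw [hrel, hv, add_assoc, zmod2_add_self, add_zero]
  -- sums over siblings
  have h3 : ∀ a : ZMod 2, a + a + a = a := by decide
  have hsib : ∀ v, ap g v = v →
      conv d v (fun n => z (n + 1)) = conv c v (fun n => y (n + 1)) := by
    intro v hv
    have e0 := hrel (0 :: v)
    have e1 := hrel (1 :: v)
    have e2 := hrel (2 :: v)
    rw [conv_cons, conv_cons, hz, hy] at e0 e1 e2
    have s1 := hdsum v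
    have s2 := hcg.sum v
    have s3 := sum_comp_ap g (par f) v
    rw [hv] at s3
    have s4 := h3 (conv d v (fun n => z (n + 1)))
    have s5 := h3 (conv c v (fun n => y (n + 1)))
    have s6 := zmod2_add_self (par f (0 :: v) + par f (1 :: v) + par f (2 :: v))
    linear_combination e0 + e1 + e2 - s4 + s5 - s1 + s2 + s3 + s6
  -- the vertices `0 ⋯ 0` are fixed
  have hzs : ∀ n, ap g (zs n) = zs n := by
    intro n
    induction n with
    | zero => simp [zs]
    | succ n ih =>
      have h1 : zs (n + 1) = 0 :: zs n := rfl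
      rw [h1, ap_cons, ih, hg, lab_ofP]
      congr 1
      split_ifs <;> decide
  have hczs : ∀ n, c (zs n) = if n = 1 then 1 else 0 := by
    intro n
    rw [hc]
    rcases n with _ | _ | n
    · simp [zs]
    · simp [zs]
    · simp [zs, List.replicate_succ]
  have e1 : ∀ n, ∑ k ∈ Finset.range (n + 1), z k * d (zs (n - k)) =
      ∑ k ∈ Finset.range (n + 1), y k * c (zs (n - k)) := by
    intro n
    rw [← conv_zs, ← conv_zs]
    exact hfix _ (hzs n)
  have e2 : ∀ n, ∑ k ∈ Finset.range (n + 1), z (k + 1) * d (zs (n - k)) =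
      ∑ k ∈ Finset.range (n + 1), y (k + 1) * c (zs (n - k)) := by
    intro n
    rw [← conv_zs d n (fun n => z (n + 1)), ← conv_zs c n (fun n => y (n + 1))]
    exact hsib _ (hzs n)
  -- `d (zs 1) = 1` and `d (zs n) = 0` for the other `n`
  have hdz : ∀ n, d (zs n) = c (zs n) := by
    intro n
    cases n with
    | zero =>
      rw [hczs]
      exact hd0
    | succ n =>
      have h4 := e1 (n + 1)
      rw [Finset.sum_range_succ' _ (n + 1), Finset.sum_range_succ' _ (n + 1)] at h4
      simp only [Nat.sub_zero, Nat.add_sub_add_right] at h4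
      rw [e2 n, hz, hy] at h4
      simpa using h4
  funext n
  have h5 := e1 (n + 1)
  have h6 : ∀ w : ℕ → ZMod 2, ∑ k ∈ Finset.range (n + 1 + 1), w k * c (zs (n + 1 - k)) =
      w n := by
    intro w
    rw [Finset.sum_eq_single n]
    · rw [hczs, if_pos (by omega), mul_one]
    · intro k _ hk
      rw [hczs, if_neg (by
        intro h
        apply hk
        omega), mul_zero]
    · intro h
      exact absurd (Finset.mem_range.2 (by omega)) h
  simp only [hdz] at h5
  rw [h6, h6] at h5
  exact h5.symm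

theorem LocIso.eq {y z : ℕ → ZMod 2} (hy : y 0 = 1) (hz : z 0 = 1) (L : LocIso y z) : y = z :=
  eq_of_conj hy hz (L.exists_conj hy hz)

end Pool.Agent.Helper59_Branch
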