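import Pool.Agent.Helper59_Branch.Rigid2

set_option autoImplicit false

open Topology

namespace Pool.Agent.Helper59_Branch

/-! ### The topology on `A` -/

instance instTopA : TopologicalSpace A := RTree.autTopology T3

theorem isOpen_ap (v w : V) : IsOpen {g : A | ap g v = w} := by
  have h : IsOpen[TopologicalSpace.induced (fun g : A => ap g v) ⊥] {g : A | ap g v = w} :=
    ⟨{w}, trivial, rfl⟩
  have h2 : (RTree.autTopology T3) ≤ TopologicalSpace.induced (fun g : A => ap g v) ⊥ :=
    iInf_le (fun v : V => TopologicalSpace.induced (fun g : A => ap g v) ⊥) v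
  exact h2 _ h

theorem continuous_to_A {X : Type} [TopologicalSpace X] {f : X → A}
    (h : ∀ v w : V, IsOpen {x : X | ap (f x) v = w}) : Continuous f := by
  apply continuous_iInf_rng.2
  intro v
  apply continuous_induced_rng.2
  have : @DiscreteTopology V ⊥ := @DiscreteTopology.mk V ⊥ rfl
  refine @Continuous.mk _ _ _ (⊥) _ ?_
  intro s _
  have h1 : (fun x => ap (f x) v) ⁻¹' s = ⋃ w ∈ s, {x : X | ap (f x) v = w} := by
    ext x
    simp
  change IsOpen ((fun x => ap (f x) v) ⁻¹' s)
  rw [h1]
  exact isOpen_biUnion (fun w _ => h v w)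

theorem continuous_ap (v : V) {D : Type} [TopologicalSpace D] [DiscreteTopology D]
    (φ : V → D) : Continuous (fun g : A => φ (ap g v)) := by
  rw [continuous_discrete_rng]
  intro d
  have h1 : (fun g : A => φ (ap g v)) ⁻¹' {d} = ⋃ w ∈ {w | φ w = d}, {g : A | ap g v = w} := by
    ext g
    simp
  rw [h1]
  exact isOpen_biUnion (fun w _ => isOpen_ap v w)

instance : T2Space A := by
  refine ⟨fun g h hne => ?_⟩
  obtain ⟨v, hv⟩ : ∃ v, ap g v ≠ ap h v := by
    by_contra hcon
    push Not at hcon
    exact hne (A_ext hcon)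
  refine ⟨{k | ap k v = ap g v}, {k | ap k v = ap h v}, isOpen_ap _ _, isOpen_ap _ _, rfl, rfl,
    ?_⟩
  rw [Set.disjoint_left]
  intro k h1 h2
  exact hv (h1.symm.trans h2)

instance : IsTopologicalGroup A where
  continuous_mul := by
    apply continuous_to_A
    intro v w
    have h1 : {p : A × A | ap (p.1 * p.2) v = w} =
        ⋃ u : V, (Prod.fst ⁻¹' {g : A | ap g u = w}) ∩ (Prod.snd ⁻¹' {h : A | ap h v = u}) := by
      ext p
      simp
    rw [h1]
    exact isOpen_iUnion (fun u => ((isOpen_ap u w).preimage continuous_fst).inter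
      ((isOpen_ap v u).preimage continuous_snd))
  continuous_inv := by
    apply continuous_to_A
    intro v w
    have h1 : {g : A | ap g⁻¹ v = w} = {g : A | ap g w = v} := by
      ext g
      simp only [Set.mem_ofPred_eq]
      rw [ap_inv_eq_iff]
      exact eq_comm
    rw [h1]
    exact isOpen_ap w v

theorem isOpen_fwd [TopologicalSpace (Equiv.Perm (Fin 3))]
    [DiscreteTopology (Equiv.Perm (Fin 3))] (v : V) (w : V) :
    IsOpen {l : V → Equiv.Perm (Fin 3) | fwd l v = w} := by
  induction v generalizing w with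
  | nil =>
    by_cases h : [] = w
    · have : {l : V → Equiv.Perm (Fin 3) | fwd l [] = w} = Set.univ := by
        ext l; simp [fwd, h]
      rw [this]; exact isOpen_univ
    · have : {l : V → Equiv.Perm (Fin 3) | fwd l [] = w} = ∅ := by
        ext l; simp [fwd, h]
      rw [this]; exact isOpen_empty
  | cons i v ih =>
    cases w with
    | nil =>
      have : {l : V → Equiv.Perm (Fin 3) | fwd l (i :: v) = []} = ∅ := by
        ext l; simp [fwd]
      rw [this]; exact isOpen_empty
    | cons j w =>
      have : {l : V → Equiv.Perm (Fin 3) | fwd l (i :: v) = j :: w} =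
          ((fun l : V → Equiv.Perm (Fin 3) => l v) ⁻¹' {σ | σ i = j}) ∩ {l | fwd l v = w} := by
        ext l; simp [fwd]
      rw [this]
      exact ((isOpen_discrete _).preimage (continuous_apply v)).inter (ih w)

instance : CompactSpace A := by
  let : TopologicalSpace (Equiv.Perm (Fin 3)) := ⊥
  have : DiscreteTopology (Equiv.Perm (Fin 3)) := ⟨rfl⟩
  have h1 : Continuous ofP := continuous_to_A (fun v w => isOpen_fwd v w)
  have h2 : Function.Surjective ofP := fun g => ⟨lab g, ofP_lab g⟩
  exact h2.compactSpace h1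

theorem isOpen_lab (v : V) (σ : Equiv.Perm (Fin 3)) : IsOpen {g : A | lab g v = σ} := by
  have h1 : {g : A | lab g v = σ} = ⋂ i : Fin 3, {g : A | (ap g (i :: v)).headI = σ i} := by
    ext g
    simp only [Set.mem_ofPred_eq, Set.mem_iInter]
    constructor
    · rintro h i
      rw [ap_cons, h]
      rfl
    · intro h
      apply Equiv.ext
      intro i
      have := h i
      rw [ap_cons] at this
      exact this
  rw [h1]
  apply isOpen_iInter_of_finite
  intro i
  exact (isOpen_discrete {σ i}).preimage (continuous_ap (i :: v) List.headI)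

theorem continuous_par (v : V) [TopologicalSpace (ZMod 2)] [DiscreteTopology (ZMod 2)] :
    Continuous (fun g : A => par g v) := by
  rw [continuous_discrete_rng]
  intro d
  have h1 : (fun g : A => par g v) ⁻¹' {d} =
      ⋃ σ ∈ {σ : Equiv.Perm (Fin 3) | sg σ = d}, {g : A | lab g v = σ} := by
    ext g
    simp [par]
  rw [h1]
  exact isOpen_biUnion (fun σ _ => isOpen_lab v σ)

theorem continuous_conv (v : V) (y : ℕ → ZMod 2) [TopologicalSpace (ZMod 2)]
    [DiscreteTopology (ZMod 2)] : Continuous (fun c : V → ZMod 2 => conv c v y) := by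
  have h1 : Continuous (fun p : ZMod 2 × ZMod 2 => p.1 * p.2) := continuous_of_discreteTopology
  have h2 : Continuous (fun p : ZMod 2 × ZMod 2 => p.1 + p.2) := continuous_of_discreteTopology
  induction v generalizing y with
  | nil =>
    simp only [conv_nil]
    exact h1.comp (continuous_const.prodMk (continuous_apply _))
  | cons i v ih =>
    simp only [conv_cons]
    exact h2.comp ((h1.comp (continuous_const.prodMk (continuous_apply _))).prodMk (ih _))

/-- `K y` is closed -/
theorem isClosed_K (y : ℕ → ZMod 2) : IsClosed (K y : Set A) := by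
  let : TopologicalSpace (ZMod 2) := ⊥
  have : DiscreteTopology (ZMod 2) := ⟨rfl⟩
  have h1 : (K y : Set A) = Prod.fst '' {p : A × (V → ZMod 2) | IsC y p.1 p.2} := by
    ext g
    simp only [SetLike.mem_coe, mem_K, Set.mem_image, Set.mem_ofPred_eq, Prod.exists,
      exists_and_right, exists_eq_right]
  rw [h1]
  apply isClosedMap_fst_of_compactSpace
  have h2 : {p : A × (V → ZMod 2) | IsC y p.1 p.2} =
      {p | p.2 [] = 0} ∩ (⋂ v, {p | p.2 (0 :: v) + p.2 (1 :: v) + p.2 (2 :: v) = 0}) ∩
        (⋂ v, {p | par p.1 v = conv p.2 v y}) := by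
    ext p
    simp only [Set.mem_ofPred_eq, Set.mem_inter_iff, Set.mem_iInter]
    exact ⟨fun h => ⟨⟨h.nil, h.sum⟩, h.par_eq⟩, fun h => ⟨h.1.1, h.1.2, h.2⟩⟩
  rw [h2]
  have hap : ∀ v : V, Continuous (fun p : A × (V → ZMod 2) => p.2 v) :=
    fun v => (continuous_apply v).comp continuous_snd
  refine ((isClosed_eq (hap _) continuous_const).inter (isClosed_iInter fun v => ?_)).inter
    (isClosed_iInter fun v => ?_)
  · exact isClosed_eq (((hap _).add (hap _)).add (hap _)) continuous_const
  · exact isClosed_eq ((continuous_par v).comp continuous_fst)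
      ((continuous_conv v y).comp continuous_snd)

instance compactSpace_K (y : ℕ → ZMod 2) : CompactSpace ↥(K y) :=
  isCompact_iff_compactSpace.1 (isClosed_K y).isCompact

/-- the pointwise stabilizer of level `n` is open -/
theorem isOpen_stab (n : ℕ) : IsOpen {g : A | ∀ v : V, v.length ≤ n → ap g v = v} := by
  have h1 : {g : A | ∀ v : V, v.length ≤ n → ap g v = v} =
      ⋂ v ∈ {v : V | v.length ≤ n}, {g : A | ap g v = v} := by
    ext g; simp
  rw [h1]
  exact (List.finite_length_le (Fin 3) n).isOpen_biInter (fun v _ => isOpen_ap v v)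

theorem mem_Kf_of_stab {y : ℕ → ZMod 2} {g : A} {m : ℕ} (hg : g ∈ K y)
    (h : ∀ v : V, v.length ≤ m + 1 → ap g v = v) : g ∈ Kf y m :=
  ⟨hg, fun v hv => ⟨h v (by omega), par_eq_zero_of_fix (fun i => h _ (by simpa using hv))⟩⟩

/-- neighbourhoods of the identity in `K y` contain some `Kf y M` -/
theorem exists_Kf_subset (y : ℕ → ZMod 2) {O : Set A} (hO : IsOpen O) (h1 : (1 : A) ∈ O) :
    ∃ M, (Kf y M : Set A) ⊆ O := by
  by_contra hcon
  push Not at hcon
  -- a compactness argument
  have hcl : ∀ M, IsClosed {g : A | g ∉ O ∧ ∀ v : V, v.length ≤ M → ap g v = v} := by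
    intro M
    have : {g : A | g ∉ O ∧ ∀ v : V, v.length ≤ M → ap g v = v} =
        Oᶜ ∩ ⋂ v ∈ {v : V | v.length ≤ M}, {g : A | ap g v = v} := by
      ext g; simp
    rw [this]
    refine hO.isClosed_compl.inter (isClosed_biInter fun v _ => ?_)
    rw [← isOpen_compl_iff]
    have h2 : {g : A | ap g v = v}ᶜ = ⋃ w ∈ {w | w ≠ v}, {g : A | ap g v = w} := by
      ext g; simp
    rw [h2]
    exact isOpen_biUnion (fun w _ => isOpen_ap v w)
  have hne : (⋂ M, {g : A | g ∉ O ∧ ∀ v : V, v.length ≤ M → ap g v = v}).Nonempty := by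
    apply IsCompact.nonempty_iInter_of_sequence_nonempty_isCompact_isClosed
    · intro M g hg
      exact ⟨hg.1, fun v hv => hg.2 v (by omega)⟩
    · intro M
      obtain ⟨g, hg, hgO⟩ := Set.not_subset.1 (hcon M)
      exact ⟨g, hgO, fun v hv => (hg.2 v hv).1⟩
    · exact (hcl 0).isCompact
    · exact hcl
  obtain ⟨g, hg⟩ := hne
  rw [Set.mem_iInter] at hg
  have : g = 1 := A_ext (fun v => (hg v.length).2 v le_rfl)
  exact (hg 0).1 (this ▸ h1)

theorem isOpen_Kf (y : ℕ → ZMod 2) (m : ℕ) : IsOpen {g : ↥(K y) | (g : A) ∈ Kf y m} := by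
  have h1 : IsOpen (((Kf y m).subgroupOf (K y) : Subgroup ↥(K y)) : Set ↥(K y)) := by
    apply Subgroup.isOpen_of_mem_nhds (g := 1)
    rw [mem_nhds_iff]
    refine ⟨Subtype.val ⁻¹' {g : A | ∀ v : V, v.length ≤ m + 1 → ap g v = v}, ?_,
      (isOpen_stab (m + 1)).preimage continuous_subtype_val, fun v _ => rfl⟩
    intro g hg
    exact mem_Kf_of_stab g.2 hg
  exact h1

/-! ### `K y` is a branch group -/

theorem level_T3 (v : V) : RTree.level T3 v = v.length := by
  unfold RTree.level
  have h1 : {k : ℕ | (List.tail)^[k] v = []} = Set.Ici v.length := by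
    ext k
    simp only [Set.mem_ofPred_eq, Set.mem_Ici]
    rw [tail_iterate, List.drop_eq_nil_iff]
  change sInf {k : ℕ | (List.tail)^[k] v = []} = v.length
  rw [h1]
  exact csInf_Ici

theorem below_T3 (v w : V) : RTree.Below T3 v w ↔ v <:+ w := by
  constructor
  · rintro ⟨k, hk⟩
    change (List.tail)^[k] w = v at hk
    rw [tail_iterate] at hk
    rw [← hk]
    exact List.drop_suffix _ _
  · intro h
    refine ⟨w.length - v.length, ?_⟩
    change (List.tail)^[w.length - v.length] w = v
    rw [tail_iterate]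
    exact (suffix_iff_drop.1 h).symm

theorem children_T3 (v : V) : RTree.children T3 v = Set.range (fun i : Fin 3 => i :: v) := by
  ext w
  change (w.tail = v ∧ w ≠ []) ↔ _
  rw [Set.mem_range]
  constructor
  · rintro ⟨h1, h2⟩
    cases w with
    | nil => exact absurd rfl h2
    | cons i w => exact ⟨i, by rw [← h1]; rfl⟩
  · rintro ⟨i, rfl⟩
    exact ⟨rfl, by simp⟩

theorem ncard_children_T3 (v : V) : (RTree.children T3 v).ncard = 3 := by
  rw [children_T3, ← Set.image_univ, Set.ncard_image_of_injective]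
  · simp
  · intro i j h
    simpa using h

theorem T3_homogeneous : RTree.IsHomogeneous T3 where
  finite := fun v => by
    rw [children_T3]
    exact Set.finite_range _
  two_le := fun v => by
    rw [ncard_children_T3]
    norm_num
  homogeneous := fun v w _ => by
    rw [ncard_children_T3, ncard_children_T3]

theorem Kf_relIndex (y : ℕ → ZMod 2) (m : ℕ) : (Kf y m).relIndex (K y) ≠ 0 := by
  have h1 : IsOpen (((Kf y m).subgroupOf (K y) : Subgroup ↥(K y)) : Set ↥(K y)) := isOpen_Kf y m
  have h2 := Subgroup.quotient_finite_of_isOpen _ h1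
  unfold Subgroup.relIndex
  have h3 : ((Kf y m).subgroupOf (K y)).FiniteIndex := Subgroup.finiteIndex_of_finite_quotient
  exact h3.index_ne_zero

theorem K_isBranch {y : ℕ → ZMod 2} (hy : y 0 = 1) : RTree.IsBranch T3 (K y) where
  closed := isClosed_K y
  transitive := fun v w h => by
    rw [level_T3, level_T3] at h
    obtain ⟨g, hg, hgv⟩ := H_trans' (u := []) (List.nil_suffix) (List.nil_suffix) h
    exact ⟨g, (H_le_R y [] hg).1, hgv⟩
  finite_index := fun n _ => by
    have h1 : Kf y n ≤ RTree.ristLevel T3 (K y) n := by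
      intro g hg
      apply Subgroup.closure_mono _ (Kf_gen hy hg)
      rintro h ⟨v, hv, hh⟩
      refine ⟨v, by rw [level_T3]; exact hv, hh.1, fun w hw => ?_⟩
      apply hh.2
      intro h2
      exact hw ((below_T3 v w).2 h2)
    exact fun h => Kf_relIndex y n (Subgroup.relIndex_eq_zero_of_le_left h1 h)

end Pool.Agent.Helper59_Branch
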